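import Pool.Agent.Lib.TG9_h22.R4a
import Pool.Agent.Lib.TG9.Ram

/-!
# TANK G, track BC9: row R4 of `Defs4`: the divisors where the second map is ramified
-/

set_option autoImplicit false

open MvPolynomial

namespace Pool.Agent.TG9h22

open Pool.Agent.TG51 Pool.Agent.TG Pool.Agent.TG9 Pool.Agent.LU2

universe u

theorem num_r4 (m' : ℕ) : (m' + 1 + 1) * (m' + 1) * (m' + 1 + 1) ^ (m' + 1 - 1) ≤ d9 (m' + 1) := by
  have h1 : (m' + 1 + 1) * (m' + 1) * (m' + 1 + 1) ^ (m' + 1 - 1) =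
      (m' + 1) * (m' + 1 + 1) ^ (m' + 1) := by
    rw [Nat.add_sub_cancel, pow_succ]
    ring
  rw [h1, d9, C9]
  have h2 : (m' + 1 + 1) ^ (m' + 1) ≤ ((2 * (m' + 1) + 3) * (m' + 1 + 1)) ^ (m' + 1) :=
    Nat.pow_le_pow_left (Nat.le_mul_of_pos_left _ (by omega)) _
  have h3 : 1 ≤ (2 * (m' + 1) + 3) ^ (m' + 1) := Nat.one_le_pow _ _ (by omega)
  have h4 : 1 ≤ (m' + 1).factorial := Nat.factorial_pos _
  calc (m' + 1) * (m' + 1 + 1) ^ (m' + 1)
      ≤ (m' + 1 + 6) * (m' + 1 + 1) ^ (m' + 1) := Nat.mul_le_mul_right _ (by omega)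
    _ = (m' + 1 + 6) * 1 * 1 * (m' + 1 + 1) ^ (m' + 1) := by ring
    _ ≤ _ := Nat.mul_le_mul (Nat.mul_le_mul (Nat.mul_le_mul le_rfl h3) h4) h2

section Main

variable {k K : Type u} [Field k] [Field K] [Algebra k K] {m' p : ℕ} {A₀ : Subalgebra k K}
  {L : Submodule k K} {c : ℕ} {τ : K} {c' m : ℕ} {q : K [⋀^Fin (m' + 1 + 1)]→ₗ[k] K}
  {W : Submodule k K} {f : Fin (m' + 1 + 1) → K}
  {h : Fin (m' + 1 + 1) → MvPolynomial (Fin (m' + 1 + 1)) k}

theorem rind_bb (S : Setup (m' + 1) p A₀ L c τ c' m q W f h) {v : ValuationSubring K}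
    (hL : ∀ x ∈ LB k (bb f h), x ∈ v) : RInd k v (bb f h) := by
  intro P hP
  have h1 : aeval (bb f h) P ∈ LB k (bb f h) := by
    rw [aeval_def, eval₂_eq']
    exact sum_mem fun d _ => mul_mem ((LB k (bb f h)).algebraMap_mem _)
      (prod_mem fun i _ => pow_mem
        (IntermediateField.subset_adjoin k (Set.range (bb f h)) (Set.mem_range_self i)) _)
  have h2 : aeval (bb f h) P ≠ 0 := fun h0 =>
    hP (algebraicIndependent_iff.1 (setup_ind_b S) P h0)
  have h3 := (v.valuation_le_one_iff _).2 (hL _ h1)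
  have h4 := (v.valuation_le_one_iff _).2 (hL _ (inv_mem h1))
  rw [map_inv₀] at h4
  exact le_antisymm h3
    ((inv_le_one₀ (zero_lt_iff.2 ((Valuation.ne_zero_iff _).2 h2))).1 h4)

/-- Row R4. -/
theorem r4Stmt : R4Stmt k K := by
  intro m' p A₀ L c τ c' m q W f h S v hv hL ⟨a₁, hfa, hfa0, hJ⟩
  have hkc : IsAlgClosed k := S.closed
  have hpr : Fact p.Prime := ⟨S.prime⟩
  have hch : CharP k p := S.char
  -- `f a₁` is minimal
  obtain ⟨j, hj⟩ := S.good.bpf v hv.ov
  have ha₁ : IsMin v ((W * L) ^ (2 * (m' + 1) + 3)) (f a₁) := by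
    refine hj.of_val (S.good.mem a₁) (le_antisymm ?_ ?_)
    · exact (v.valuation_le_one_iff _).2 (hj.div _ (S.good.mem a₁))
    · have h1 := (v.valuation_le_one_iff _).2 (hfa j)
      rw [← inv_div, map_inv₀] at h1
      exact (inv_le_one₀ (zero_lt_iff.2 ((Valuation.ne_zero_iff _).2
        (div_ne_zero hfa0 hj.ne)))).1 h1
  have hval := setup_val S hv.ov (pdiv_mem S hv) ha₁
  have hu : v.valuation (f a₁) ≠ 0 := (Valuation.ne_zero_iff _).2 hfa0
  let κ := IsLocalRing.ResidueField v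
  let _ : Algebra k κ := resAlg hv.ov
  let g : Fin (m' + 1 + 1) → v := fun a => ⟨f a / f a₁, hfa a⟩
  let y : Fin (m' + 1 + 1) → κ := fun a => IsLocalRing.residue v (g a)
  -- residues of forms
  have hres : ∀ {e : ℕ} {P : MvPolynomial (Fin (m' + 1 + 1)) k}, P.IsHomogeneous e →
      ∃ hP : aeval f P / f a₁ ^ e ∈ v, IsLocalRing.residue v ⟨_, hP⟩ = aeval y P := by
    intro e P hP
    obtain ⟨h1, h2⟩ := res_aeval hv.ov g P
    have h3 : aeval f P / f a₁ ^ e = aeval (fun a => (g a : K)) P := form_div hP hfa0 f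
    refine ⟨h3 ▸ h1, ?_⟩
    rw [← h2]
    exact congrArg _ (Subtype.ext h3)
  have hres0 : ∀ x : v, IsLocalRing.residue v x = 0 ↔ v.valuation (x : K) < 1 := by
    intro x
    rw [IsLocalRing.residue_eq_zero_iff, IsLocalRing.mem_maximalIdeal, mem_nonunits_iff,
      v.valuation_eq_one_iff]
    exact ⟨fun h1 => lt_of_le_of_ne (v.valuation_le_one x) h1, fun h1 => h1.ne⟩
  have hy0 : aeval y (h 0) ≠ 0 := by
    obtain ⟨h1, h2⟩ := hres (S.hom 0)
    rw [← h2]
    intro h3
    rw [hres0] at h3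
    refine h3.ne ?_
    change v.valuation (aeval f (h 0) / f a₁ ^ (m' + 1 + 1)) = 1
    rw [map_div₀, hval, map_pow, div_self (pow_ne_zero _ hu)]
  set G := Matrix.det (Matrix.of fun i a => pderiv a (h i)) with hG
  have hGh : G.IsHomogeneous ((m' + 1 + 1) * (m' + 1)) := isHomogeneous_jac S.hom
  have hG0 : G ≠ 0 := by
    intro h0
    refine S.jac_ne ?_
    rw [← hG, h0, map_zero]
  have hyG : aeval y G = 0 := by
    obtain ⟨h1, h2⟩ := hres hGh
    rw [← h2, hres0]
    change v.valuation (aeval f G / f a₁ ^ ((m' + 1 + 1) * (m' + 1))) < 1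
    rw [map_div₀, map_pow]
    exact (div_lt_one₀ (zero_lt_iff.2 (pow_ne_zero _ hu))).2 hJ
  -- the residues of the ratios
  have hrat : ∀ i, IsLocalRing.residue v ⟨aeval f (h i) / aeval f (h 0), pdiv_mem S hv i⟩ =
      aeval y (h i) / aeval y (h 0) := by
    intro i
    obtain ⟨h1, h2⟩ := hres (S.hom i)
    obtain ⟨h3, h4⟩ := hres (S.hom 0)
    rw [eq_div_iff hy0, ← h4, ← h2, ← map_mul]
    refine congrArg _ (Subtype.ext ?_)
    change aeval f (h i) / aeval f (h 0) * (aeval f (h 0) / f a₁ ^ (m' + 1 + 1)) =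
      aeval f (h i) / f a₁ ^ (m' + 1 + 1)
    rw [div_mul_div_cancel₀ S.h_ne]
  -- `L₀ = k(b)` acts on the residue field
  let ψ : LB k (bb f h) →+* κ := (IsLocalRing.residue v).comp
    ((algebraMap (LB k (bb f h)) K).codRestrict v.toSubring fun x => hL x x.2)
  let _ : Algebra (LB k (bb f h)) κ := ψ.toAlgebra
  have hψb : ∀ i, ψ ⟨bb f h i, IntermediateField.subset_adjoin _ _ ⟨i, rfl⟩⟩ =
      aeval y (h i.castSucc.succ) / aeval y (h 0) := fun i => hrat _
  let N : IntermediateField k κ := IntermediateField.adjoin k {x : κ | ∃ a b, x = y a / y b}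
  let F : IntermediateField k κ := IntermediateField.adjoin k
    (Set.range fun i : Fin (m' + 1) => aeval y (h i.castSucc) / aeval y (h 0))
  have hy1 : y a₁ = 1 := by
    change IsLocalRing.residue v (g a₁) = 1
    have : g a₁ = 1 := Subtype.ext (div_self hfa0)
    rw [this, map_one]
  have hyN : ∀ a, y a ∈ N := fun a =>
    IntermediateField.subset_adjoin _ _ ⟨a, a₁, by rw [hy1, div_one]⟩
  have hPN : ∀ P : MvPolynomial (Fin (m' + 1 + 1)) k, aeval y P ∈ N := by
    intro P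
    rw [aeval_def, eval₂_eq']
    exact sum_mem fun d _ => mul_mem (N.algebraMap_mem _) (prod_mem fun i _ => pow_mem (hyN i) _)
  have hψF : ∀ x : LB k (bb f h), ψ x ∈ F := by
    rintro ⟨x, hx⟩
    induction hx using IntermediateField.adjoin_induction with
    | mem x hx =>
      obtain ⟨i, rfl⟩ := hx
      have h1 := hψb i
      rw [h1]
      exact IntermediateField.subset_adjoin _ _ ⟨i.succ, rfl⟩
    | algebraMap x => exact F.algebraMap_mem x
    | add x y hx hy h1 h2 =>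
      have h3 : ψ (⟨x, hx⟩ + ⟨y, hy⟩) ∈ F := by
        rw [map_add]
        exact add_mem h1 h2
      exact h3
    | inv x hx h1 =>
      have h3 : ψ (⟨x, hx⟩⁻¹) ∈ F := by
        rw [map_inv₀]
        exact inv_mem h1
      exact h3
    | mul x y hx hy h1 h2 =>
      have h3 : ψ (⟨x, hx⟩ * ⟨y, hy⟩) ∈ F := by
        rw [map_mul]
        exact mul_mem h1 h2
      exact h3
  have hFψ : ∀ x ∈ F, ∃ l, ψ l = x := by
    intro x hx
    induction hx using IntermediateField.adjoin_induction with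
    | mem x hx =>
      obtain ⟨i, rfl⟩ := hx
      rcases Fin.eq_zero_or_eq_succ i with rfl | ⟨l, rfl⟩
      · refine ⟨1, ?_⟩
        rw [map_one]
        exact (div_self hy0).symm
      · exact ⟨_, hψb l⟩
    | algebraMap x => exact ⟨algebraMap k _ x, rfl⟩
    | add x y _ _ h1 h2 =>
      obtain ⟨a, ha⟩ := h1
      obtain ⟨b, hb⟩ := h2
      exact ⟨a + b, by rw [map_add, ha, hb]⟩
    | inv x _ h1 =>
      obtain ⟨a, ha⟩ := h1
      exact ⟨a⁻¹, by rw [map_inv₀, ha]⟩
    | mul x y _ _ h1 h2 =>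
      obtain ⟨a, ha⟩ := h1
      obtain ⟨b, hb⟩ := h2
      exact ⟨a * b, by rw [map_mul, ha, hb]⟩
  have hFN : ∀ x ∈ F, x ∈ N := by
    have h1 : F ≤ N := by
      refine IntermediateField.adjoin_le_iff.2 ?_
      rintro _ ⟨i, rfl⟩
      exact div_mem (hPN _) (hPN _)
    exact h1
  -- the transcendence degree of `F`
  have hFx : F = IntermediateField.adjoin k
      (Set.range fun i : Fin m' => aeval y (h i.castSucc.succ) / aeval y (h 0)) := by
    refine le_antisymm (IntermediateField.adjoin_le_iff.2 ?_) (IntermediateField.adjoin_le_iff.2 ?_)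
    · rintro _ ⟨i, rfl⟩
      rcases Fin.eq_zero_or_eq_succ i with rfl | ⟨l, rfl⟩
      · change aeval y (h 0) / aeval y (h 0) ∈ _
        rw [div_self hy0]
        exact one_mem _
      · exact IntermediateField.subset_adjoin _ _ ⟨l, rfl⟩
    · rintro _ ⟨i, rfl⟩
      exact IntermediateField.subset_adjoin _ _ ⟨i.succ, rfl⟩
  have hind : AlgebraicIndependent k
      (fun i : Fin m' => aeval y (h i.castSucc.succ) / aeval y (h 0)) := by
    have h1 := (rind_iff hv.ov (fun i : Fin m' => (⟨bb f h i, hv.b_mem i⟩ : v))).1 (rind_bb S hL)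
    have h2 : (fun i : Fin m' => IsLocalRing.residue v ⟨bb f h i, hv.b_mem i⟩) =
        fun i : Fin m' => aeval y (h i.castSucc.succ) / aeval y (h 0) :=
      funext fun i => hrat _
    rw [h2] at h1
    exact h1
  have htr : Algebra.trdeg k F = ((m' + 1 - 1 : ℕ) : Cardinal.{u}) := by
    rw [hFx, trdeg_adjoin_ind hind, Nat.add_sub_cancel]
  -- the degree of `M / L₀`
  let M := IntermediateField.adjoin (LB k (bb f h)) {x : κ | ∃ a b, x = y a / y b}
  have hMN : ∀ x ∈ M, x ∈ N := by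
    intro x hx
    induction hx using IntermediateField.adjoin_induction with
    | mem x hx => exact IntermediateField.subset_adjoin _ _ hx
    | algebraMap x => exact hFN _ (hψF x)
    | add x y _ _ h1 h2 => exact add_mem h1 h2
    | inv x _ h1 => exact inv_mem h1
    | mul x y _ _ h1 h2 => exact mul_mem h1 h2
  obtain ⟨hfin, hdeg⟩ := finrank_adjoin_le (F := LB k (bb f h)) (E := κ)
    {x : κ | ∃ a b, x = y a / y b} ((m' + 1 + 1) * (m' + 1) * (m' + 1 + 1) ^ (m' + 1 - 1)) (by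
      intro r θ hθ hθM
      have hθF : LinearIndependent F θ := by
        have h1 := hθ.map_of_surjective_injective (R' := F) (M' := κ)
          (ZeroHom.mk (fun l => (⟨ψ l, hψF l⟩ : F)) (Subtype.ext (map_zero ψ)))
          (AddMonoidHom.id κ) (by
            rintro ⟨x, hx⟩
            obtain ⟨l, hl⟩ := hFψ x hx
            exact ⟨l, Subtype.ext hl⟩) (fun x hx => hx) (fun l x => rfl)
        exact h1
      exact ramStmt k κ hkc (m' + 1) (m' + 1 + 1) ((m' + 1 + 1) * (m' + 1)) y G (by omega)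
        (by omega) hG0 hGh hyG (fun i => h i.castSucc) (fun i => S.hom _) 0 hy0 htr F rfl r θ hθF
        (fun i => hMN _ (hθM i)))
  have hd9 := num_r4 m'
  have hchL : CharP (LB k (bb f h)) p :=
    (Algebra.charP_iff k (LB k (bb f h)) p).1 hch
  have hsep : Algebra.IsSeparable (LB k (bb f h)) M :=
    isSeparable_of_finrank p ((hdeg.trans hd9).trans_lt S.lt)
  -- the residue of `z`
  have hz : IsLocalRing.residue v ⟨zz f h, hv.z_mem⟩ =
      aeval y (h (Fin.last (m' + 1))) / aeval y (h 0) := hrat _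
  have hyM : ∀ a, y a ∈ M := fun a =>
    IntermediateField.subset_adjoin _ _ ⟨a, a₁, by rw [hy1, div_one]⟩
  have hPM : ∀ P : MvPolynomial (Fin (m' + 1 + 1)) k, aeval y P ∈ M := by
    intro P
    rw [aeval_def, eval₂_eq']
    refine sum_mem fun d _ => mul_mem ?_ (prod_mem fun i _ => pow_mem (hyM i) _)
    exact M.algebraMap_mem (algebraMap k (LB k (bb f h)) _)
  have hzM : IsLocalRing.residue v ⟨zz f h, hv.z_mem⟩ ∈ M := by
    rw [hz]
    exact div_mem (hPM _) (hPM _)
  refine ⟨M, inferInstance, inferInstance, ⟨_, hzM⟩, hfin, hsep,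
    fun v₀ _ => ldeg_of_finrank (hdeg.trans hd9), ?_⟩
  obtain ⟨h1, h2⟩ := res_aeval_poly (F := LB k (bb f h)) (fun x => hL x x.2) ψ (fun x => rfl)
    ⟨zz f h, hv.z_mem⟩ (minpoly (LB k (bb f h)) (⟨_, hzM⟩ : M))
  have h3 : Polynomial.eval₂ ψ (IsLocalRing.residue v ⟨zz f h, hv.z_mem⟩)
      (minpoly (LB k (bb f h)) (⟨_, hzM⟩ : M)) = 0 := by
    have h4 := congrArg (algebraMap M κ)
      (minpoly.aeval (LB k (bb f h)) (⟨IsLocalRing.residue v ⟨zz f h, hv.z_mem⟩, hzM⟩ : M))
    rw [map_zero, ← Polynomial.aeval_algebraMap_apply] at h4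
    exact h4
  rw [h3] at h2
  exact (hres0 _).1 h2

end Main

end Pool.Agent.TG9h22
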