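import Pool.Agent.Lib.TG9_h22.R7a

/-!
# TANK G, track BC9: row R7 of `Defs4`: the prime divisors of `Spec k[b, z]` are divisors of the
model `H = W * L`, finitely many of them are bad
-/

set_option autoImplicit false

open MvPolynomial

namespace Pool.Agent.TG9h22

open Pool.Agent.TG51 Pool.Agent.TG Pool.Agent.TG9 Pool.Agent.LU2

universe u

section Tr

open scoped IntermediateField.algebraAdjoinAdjoin

/-- The last element of an algebraically independent family is transcendental over the field of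
the other ones. -/
theorem transcendental_last {k K : Type u} [Field k] [Field K] [Algebra k K] {n : ℕ}
    {x : Fin (n + 1) → K} (hx : AlgebraicIndependent k x) :
    Transcendental (IntermediateField.adjoin k (Set.range fun i : Fin n => x i.castSucc))
      (x (Fin.last n)) := by
  intro h
  have h1 : IsAlgebraic (Algebra.adjoin k (Set.range fun i : Fin n => x i.castSucc))
      (x (Fin.last n)) := h.restrictScalars _
  have h2 := hx.transcendental_adjoin (s := {Fin.last n}ᶜ) (i := Fin.last n) (by simp)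
  have h3 : x '' {Fin.last n}ᶜ = Set.range fun i : Fin n => x i.castSucc := by
    ext y
    constructor
    · rintro ⟨i, hi, rfl⟩
      obtain ⟨j, rfl⟩ := Fin.exists_castSucc_eq.2 (by simpa using hi)
      exact ⟨j, rfl⟩
    · rintro ⟨j, rfl⟩
      exact ⟨j.castSucc, by simp [(Fin.castSucc_lt_last j).ne], rfl⟩
  rw [h3] at h2
  exact h2 h1

end Tr

section Main

variable {k K : Type u} [Field k] [Field K] [Algebra k K] {m' p : ℕ} {A₀ : Subalgebra k K}
  {L : Submodule k K} {c : ℕ} {τ : K} {c' m : ℕ} {q : K [⋀^Fin (m' + 1 + 1)]→ₗ[k] K}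
  {W : Submodule k K} {f : Fin (m' + 1 + 1) → K}
  {h : Fin (m' + 1 + 1) → MvPolynomial (Fin (m' + 1 + 1)) k}

theorem setup_ind_b (S : Setup (m' + 1) p A₀ L c τ c' m q W f h) :
    AlgebraicIndependent k (bb f h) :=
  (setup_ind S).comp (fun i : Fin m' => i.castSucc) (Fin.castSucc_injective m')

theorem setup_tr (S : Setup (m' + 1) p A₀ L c τ c' m q W f h) :
    Transcendental (LB k (bb f h)) (zz f h) := by
  have h1 := transcendental_last (setup_ind S)
  rwa [Fin.succ_last] at h1

/-- All ratios `h i (f) / h 0 (f)` are in `v`. -/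
theorem pdiv_mem (S : Setup (m' + 1) p A₀ L c τ c' m q W f h) {v : ValuationSubring K}
    (hv : PDiv k (bb f h) (zz f h) v) (i : Fin (m' + 1 + 1)) :
    aeval f (h i) / aeval f (h 0) ∈ v := by
  rcases Fin.eq_zero_or_eq_succ i with rfl | ⟨j, rfl⟩
  · rw [div_self S.h_ne]
    exact one_mem v
  · rcases Fin.eq_castSucc_or_eq_last j with ⟨l, rfl⟩ | rfl
    · exact hv.b_mem l
    · rw [Fin.succ_last]
      exact hv.z_mem

/-- First part of row R7. -/
theorem pdiv_dv (S : Setup (m' + 1) p A₀ L c τ c' m q W f h) {v : ValuationSubring K}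
    (hv : PDiv k (bb f h) (zz f h) v) : Dv (m' + 1) (W * L) v := by
  obtain ⟨htop, w, hw, hind⟩ := pdStmt k K m' (bb f h) (zz f h) (setup_ind_b S) (setup_tr S) v hv
  have hmin := setup_min S hv.ov (pdiv_mem S hv)
  refine dv_of_rind_pow (setup_model S) hv.ov htop (w := w) (fun i => ?_) hind
  have h1 : ∀ j, aeval f (h j) ∈ (W * L) ^ ((2 * (m' + 1) + 3) * (m' + 1 + 1)) := by
    intro j
    rw [pow_mul]
    exact form_mem (S.hom j) S.good.mem
  rcases hw i with h2 | ⟨l, h2⟩
  · exact ⟨_, _, h1 (Fin.last (m' + 1)), _, hmin, h2⟩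
  · exact ⟨_, _, h1 l.castSucc.succ, _, hmin, h2.symm⟩

/-- Row R7. -/
theorem r7Stmt (hBX : BXStmt k K) : R7Stmt k K := by
  classical
  intro m' p A₀ L c τ c' m q W f h S
  refine ⟨fun v hv => pdiv_dv S hv, ?_⟩
  obtain ⟨X, hX0, hX⟩ := hBX (m' + 1) L c τ c' m (2 * (m' + 1) + 3) q W f S.dat S.W_le S.W_ne
    S.good.mem S.good.ne
  have hM := setup_model S
  have hbir : Bir (W * L) := Bir.mul S.W_ne S.dat.bir
  have hfin := finhStmt k K (m' + 1) S.closed S.fg S.trdeg S.pos (W * L) hM.fg hbir
    (insert (aeval f (Matrix.det (Matrix.of fun i a => pderiv a (h i)))) X) (by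
      intro x hx
      rcases Finset.mem_insert.1 hx with rfl | hx
      · exact S.jac_ne
      · exact hX0 x hx)
  refine hfin.subset ?_
  rintro v ⟨hv, hbad⟩
  refine ⟨pdiv_dv S hv, ?_⟩
  by_contra hcon
  push Not at hcon
  obtain ⟨h1, h2⟩ := hX v hv.ov fun x hx => hcon x (Finset.mem_insert_of_mem hx)
  rcases hbad with hbad | ⟨a₁, -, ha₁, hlt⟩
  · exact h1 hbad
  · rw [h2 a₁ ha₁, one_pow, hcon _ (Finset.mem_insert_self _ _)] at hlt
    exact lt_irrefl _ hlt

end Main

end Pool.Agent.TG9h22
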