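import Pool.Agent.Lib.TG9_h22.Kr
import Pool.Agent.Lib.TG_h68.FinClos
import Pool.Agent.Lib.TG9.Defs3

/-!
# TANK G, track BC9, row FINH: only finitely many divisors of the model where a function is not a
unit
-/

set_option autoImplicit false

open MvPolynomial

namespace Pool.Agent.TG9h22

open Pool.Agent.TG51 Pool.Agent.TG Pool.Agent.TG9

universe u

section PInd

variable {k B : Type u} [Field k] [CommRing B] [Algebra k B]

/-- The residues of the `b i` modulo `P` are algebraically independent. -/
def PInd (k : Type u) {B : Type u} [Field k] [CommRing B] [Algebra k B] (P : Ideal B) {m : ℕ}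
    (b : Fin m → B) : Prop := ∀ F : MvPolynomial (Fin m) k, F ≠ 0 → aeval b F ∉ P

theorem aeval_notMem {R' : Type u} [CommRing R'] [Algebra R' B] {P Q : Ideal B} [hQ : Q.IsPrime]
    (hle : Q ≤ P) (h : ∀ a : R', a ≠ 0 → algebraMap R' B a ∉ P) {π : B} (hπP : π ∈ P)
    (hπQ : π ∉ Q) : ∀ (d : ℕ) (G : Polynomial R'), G.natDegree ≤ d → G ≠ 0 →
      Polynomial.aeval π G ∉ Q := by
  intro d
  induction d with
  | zero =>
    intro G hG hG0 hQ'
    rw [Polynomial.eq_C_of_natDegree_le_zero hG, Polynomial.aeval_C] at hQ'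
    refine h _ ?_ (hle hQ')
    intro h0
    exact hG0 (by rw [Polynomial.eq_C_of_natDegree_le_zero hG, h0, Polynomial.C_0])
  | succ d ih =>
    intro G hG hG0 hQ'
    have h1 : Polynomial.aeval π G = Polynomial.aeval π G.divX * π +
        algebraMap R' B (G.coeff 0) := by
      conv_lhs => rw [← Polynomial.divX_mul_X_add G]
      rw [map_add, map_mul, Polynomial.aeval_X, Polynomial.aeval_C]
    rw [h1] at hQ'
    by_cases h0 : G.coeff 0 = 0
    · rw [h0, map_zero, add_zero] at hQ'
      rcases hQ.mem_or_mem hQ' with h2 | h2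
      · refine ih G.divX ?_ ?_ h2
        · rw [Polynomial.natDegree_divX_eq_natDegree_tsub_one]
          omega
        · intro h3
          apply hG0
          rw [← Polynomial.divX_mul_X_add G, h3, h0, zero_mul, Polynomial.C_0, add_zero]
      · exact hπQ h2
    · refine h _ h0 ?_
      have h2 := P.sub_mem (hle hQ') (P.mul_mem_left (Polynomial.aeval π G.divX) hπP)
      rwa [add_sub_cancel_left] at h2

theorem PInd.cons {P Q : Ideal B} [P.IsPrime] [hQ : Q.IsPrime] (hlt : Q < P) {m : ℕ}
    {b : Fin m → B} (h : PInd k P b) : ∃ b' : Fin (m + 1) → B, PInd k Q b' := by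
  classical
  obtain ⟨π, hπP, hπQ⟩ := Set.exists_of_ssubset hlt
  refine ⟨Fin.cons π b, fun F hF hFQ => ?_⟩
  let _ : Algebra (MvPolynomial (Fin m) k) B :=
    (aeval b : MvPolynomial (Fin m) k →ₐ[k] B).toRingHom.toAlgebra
  have htw : IsScalarTower k (MvPolynomial (Fin m) k) B :=
    IsScalarTower.of_algebraMap_eq fun c => by
      show algebraMap k B c = aeval b (algebraMap k (MvPolynomial (Fin m) k) c)
      rw [AlgHom.commutes]
  have hG : finSuccEquiv k m F ≠ 0 := by
    intro h0
    exact hF ((map_eq_zero_iff _ (finSuccEquiv k m).injective).1 h0)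
  have h1 : aeval (Fin.cons π b : Fin (m + 1) → B) F =
      Polynomial.aeval (R := MvPolynomial (Fin m) k) π (finSuccEquiv k m F) := by
    have h2 : (aeval (Fin.cons π b : Fin (m + 1) → B) : MvPolynomial (Fin (m + 1)) k →ₐ[k] B) =
        ((Polynomial.aeval (R := MvPolynomial (Fin m) k) π).restrictScalars k).comp
          (finSuccEquiv k m).toAlgHom := by
      refine MvPolynomial.algHom_ext fun i => ?_
      rw [aeval_X]
      refine Fin.cases ?_ (fun j => ?_) i
      · show π = Polynomial.aeval π (finSuccEquiv k m (X 0))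
        rw [finSuccEquiv_X_zero, Polynomial.aeval_X]
      · show b j = Polynomial.aeval π (finSuccEquiv k m (X j.succ))
        rw [finSuccEquiv_X_succ, Polynomial.aeval_C]
        show b j = aeval b (X j)
        rw [aeval_X]
    rw [h2]
    rfl
  rw [h1] at hFQ
  exact aeval_notMem hlt.le (fun a ha => h a ha) hπP hπQ _ _ le_rfl hG hFQ

end PInd

section Height

variable {k K : Type u} [Field k] [Field K] [Algebra k K] {B : Type u} [CommRing B] [IsDomain B]
  [Algebra k B] [Algebra B K] [IsScalarTower k B K] [FaithfulSMul B K]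

/-- A nonzero prime with residues of transcendence degree `n - 1` has height one. -/
theorem height_eq_one_of_pind {n : ℕ} (hn : 0 < n) (htr : Algebra.trdeg k K = n) {P : Ideal B}
    [hP : P.IsPrime] (hP0 : P ≠ ⊥) {b : Fin (n - 1) → B} (hb : PInd k P b) : P.height = 1 := by
  refine height_eq_one_of_forall hP0 fun Q hQ hlt => ?_
  by_contra hQ0
  obtain ⟨b₁, hb₁⟩ := hb.cons hlt
  have h0 : (⊥ : Ideal B) < Q := bot_lt_iff_ne_bot.2 hQ0
  have hbot : (⊥ : Ideal B).IsPrime := Ideal.isPrime_bot
  obtain ⟨b₂, hb₂⟩ := hb₁.cons h0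
  have h1 : AlgebraicIndependent k (fun i => algebraMap B K (b₂ i)) := by
    refine algebraicIndependent_iff.2 fun F hF => ?_
    by_contra hF0
    apply hb₂ F hF0
    rw [Ideal.mem_bot]
    apply FaithfulSMul.algebraMap_injective B K
    rw [map_zero, ← hF]
    have h2 : (aeval fun i => algebraMap B K (b₂ i) : MvPolynomial _ k →ₐ[k] K) =
        (IsScalarTower.toAlgHom k B K).comp (aeval b₂) := by
      rw [comp_aeval]
      rfl
    rw [h2]
    rfl
  have h2 := h1.lift_cardinalMk_le_trdeg
  rw [Cardinal.mk_fin, Cardinal.lift_natCast, Cardinal.lift_id'.{0, u}, htr] at h2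
  have h3 : n - 1 + 1 + 1 ≤ n := by exact_mod_cast h2
  omega

end Height

section Fin

variable {k K : Type u} [Field k] [Field K] [Algebra k K]

/-- ROW FINH: there are only finitely many divisors of the model `H` at which some of the finitely
many nonzero functions `X` is not a unit. -/
theorem finite_dv [PerfectField k] (hK : (⊤ : IntermediateField k K).FG) {n : ℕ}
    (htr : Algebra.trdeg k K = n) (hn : 0 < n) {H : Submodule k K} (hfg : H.FG) (hb : Bir H)
    (X : Finset K) (hX : ∀ x ∈ X, x ≠ 0) :
    {v : ValuationSubring K | Dv n H v ∧ ∃ x ∈ X, v.valuation x ≠ 1}.Finite := by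
  classical
  obtain ⟨S, hS⟩ := hfg
  have key : ∀ g ∈ S, g ≠ 0 → {v : ValuationSubring K | Dv n H v ∧ IsMin v H g ∧
      ∃ x ∈ X, v.valuation x ≠ 1}.Finite := by
    intro g hgS hg0
    have hgH : g ∈ H := by rw [← hS]; exact Submodule.subset_span hgS
    set A := ch H g with hA
    have hAfg : A.FG := ch_fg ⟨S, hS⟩
    have hft : Algebra.FiniteType k A := (Subalgebra.fg_iff_finiteType A).1 hAfg
    have halg : ∀ z : K, IsAlgebraic A z :=
      isAlgebraic_of_bir hb hg0 fun z hz =>
        isAlgebraic_algebraMap (⟨z / g, div_mem_ch hz⟩ : A)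
    have halg' : Algebra.IsAlgebraic A K := ⟨halg⟩
    have hno : IsNoetherianRing A := Algebra.FiniteType.isNoetherianRing k A
    let C := integralClosure A K
    have hfin : Module.Finite A C := Pool.Agent.TGh68.finite_integralClosure hK A hAfg halg
    have hnoC : IsNoetherianRing C := IsNoetherianRing.of_finite A C
    have hfr : IsFractionRing C K := integralClosure.isFractionRing_of_algebraic (A := A)
      fun x hx => Subtype.ext hx
    have hic : IsIntegrallyClosed C :=
      (isIntegrallyClosed_iff_isIntegrallyClosedIn K).2 inferInstance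
    have hfaith : FaithfulSMul C K :=
      (faithfulSMul_iff_algebraMap_injective C K).2 (IsFractionRing.injective C K)
    have htw : IsScalarTower k C K := IsScalarTower.of_algebraMap_eq fun _ => rfl
    -- a common numerator and denominator
    obtain ⟨c, hc0, hc⟩ : ∃ c : C, c ≠ 0 ∧ ∀ x ∈ X, ∃ a b : C, algebraMap C K b ≠ 0 ∧
        x = algebraMap C K a / algebraMap C K b ∧ a ∣ c ∧ b ∣ c := by
      have h1 : ∀ x : K, ∃ a b : C, algebraMap C K b ≠ 0 ∧ x = algebraMap C K a / algebraMap C K b := by
        intro x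
        obtain ⟨a, b, hb0, h2⟩ := IsFractionRing.div_surjective (A := C) x
        exact ⟨a, b, IsFractionRing.to_map_ne_zero_of_mem_nonZeroDivisors hb0, h2.symm⟩
      choose a b hb0 hab using h1
      refine ⟨∏ x ∈ X, (a x * b x), ?_, fun x hx => ⟨a x, b x, hb0 x, hab x, ?_, ?_⟩⟩
      · refine Finset.prod_ne_zero_iff.2 fun x hx => mul_ne_zero ?_ ?_
        · intro h0
          apply hX x hx
          rw [hab x, h0, map_zero, zero_div]
        · intro h0
          apply hb0 x
          rw [h0, map_zero]
      · exact (dvd_mul_right _ _).trans (Finset.dvd_prod_of_mem (fun x => a x * b x) hx)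
      · exact (dvd_mul_left _ _).trans (Finset.dvd_prod_of_mem (fun x => a x * b x) hx)
    -- the centre of a divisor
    have hcen : ∀ v : ValuationSubring K, Dv n H v → IsMin v H g →
        ∃ (P : Ideal C) (_ : P.IsPrime) (h1 : P.height = 1),
          (∀ z : C, z ∈ P ↔ v.valuation (algebraMap C K z) < 1) ∧ v = valP K P h1 := by
      rintro v ⟨hOv, htop, g', hg', w, hwH, hw⟩ hmin
      have hCv : ∀ z : C, algebraMap C K z ∈ v := by
        intro z
        exact mem_of_isIntegral (R := A) (fun a => ch_le hOv hmin _ a.2) z.2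
      let ψ : C →+* v := (algebraMap C K).codRestrict v.toSubring hCv
      let P : Ideal C := (IsLocalRing.maximalIdeal v).comap ψ
      have hP : P.IsPrime := Ideal.IsPrime.comap _
      have hPm : ∀ z : C, z ∈ P ↔ v.valuation (algebraMap C K z) < 1 := by
        intro z
        exact v.valuation_lt_one_iff (ψ z)
      have hunit : ∀ z : C, z ∉ P → (algebraMap C K z)⁻¹ ∈ v := by
        intro z hz
        rw [hPm, not_lt] at hz
        rw [← v.valuation_le_one_iff, map_inv₀]
        exact inv_le_one_of_one_le₀ hz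
      have hP0 : P ≠ ⊥ := by
        intro h0
        apply htop
        refine top_unique fun x _ => ?_
        obtain ⟨a, b, hb0, rfl⟩ := IsFractionRing.div_surjective (A := C) x
        rw [div_eq_mul_inv]
        refine v.mul_mem _ _ (hCv a) (hunit b ?_)
        rw [h0, Ideal.mem_bot]
        exact nonZeroDivisors.ne_zero hb0
      -- residually independent elements of the chart
      obtain ⟨y, hyE, hy⟩ : ∃ y : Fin (n - 1) → K, (∀ i, y i ∈ (fun z => z / g) '' (H : Set K)) ∧
          RInd k v y := by
        refine exists_rind' hOv (E := (fun z => z / g) '' (H : Set K)) (y := fun i => w i / g') ?_ ?_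
          (fun Q hQ => hw Q hQ)
        · rintro _ ⟨z, hz, rfl⟩
          exact hmin.div z hz
        · intro j
          refine ⟨w j / g, Algebra.subset_adjoin ⟨w j, hwH j, rfl⟩, g' / g,
            Algebra.subset_adjoin ⟨g', hg'.mem, rfl⟩, val_div_eq_one hmin hg', ?_⟩
          have h1 := hg'.ne
          field_simp
      have hyA : ∀ i, y i ∈ A := fun i => by
        obtain ⟨z, hz, hzy⟩ := hyE i
        rw [← hzy]
        exact div_mem_ch hz
      have hind : PInd k P (fun i => algebraMap A C ⟨y i, hyA i⟩) := by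
        intro F hF hFP
        rw [hPm] at hFP
        have h1 : algebraMap C K (aeval (fun i => algebraMap A C ⟨y i, hyA i⟩) F) = aeval y F := by
          have h2 : (aeval y : MvPolynomial (Fin (n - 1)) k →ₐ[k] K) =
              (IsScalarTower.toAlgHom k C K).comp (aeval fun i => algebraMap A C ⟨y i, hyA i⟩) := by
            rw [comp_aeval]
            rfl
          rw [h2]
          rfl
        rw [h1, hy F hF] at hFP
        exact lt_irrefl _ hFP
      have h1 : P.height = 1 := height_eq_one_of_pind (K := K) hn htr hP0 hind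
      refine ⟨P, hP, h1, hPm, eq_valP_of_le h1 v htop ?_⟩
      rintro x ⟨a, s, hs, e⟩
      have hs0 : algebraMap C K s ≠ 0 := by
        intro h0
        apply hs
        have : s = 0 := IsFractionRing.injective C K (by rw [h0, map_zero])
        rw [this]
        exact P.zero_mem
      have hx : x = algebraMap C K a * (algebraMap C K s)⁻¹ := by
        rw [← e, mul_assoc, mul_inv_cancel₀ hs0, mul_one]
      rw [hx]
      exact v.mul_mem _ _ (hCv a) (hunit s hs)
    refine Set.Finite.of_finite_image (f := fun v : ValuationSubring K =>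
      {z : C | v.valuation (algebraMap C K z) < 1}) ?_ ?_
    · refine ((finite_height_one c hc0).image fun P : Ideal C => (P : Set C)).subset ?_
      rintro _ ⟨v, ⟨hD, hmin, x, hx, hvx⟩, rfl⟩
      obtain ⟨P, hP, h1, hPm, hvP⟩ := hcen v hD hmin
      refine ⟨P, ⟨hP, h1, ?_⟩, Set.ext fun z => hPm z⟩
      obtain ⟨a, b, hb0, hab, hac, hbc⟩ := hc x hx
      have hCle : ∀ z : C, v.valuation (algebraMap C K z) ≤ 1 := by
        intro z
        rw [hvP]
        exact (ValuationSubring.valuation_le_one_iff _ _).2 (algebraMap_mem_valP h1 z)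
      by_contra hcP
      have ha1 : v.valuation (algebraMap C K a) = 1 := by
        refine le_antisymm (hCle a) (not_lt.1 fun h => hcP ?_)
        obtain ⟨d, rfl⟩ := hac
        exact P.mul_mem_right _ ((hPm a).2 h)
      have hb1 : v.valuation (algebraMap C K b) = 1 := by
        refine le_antisymm (hCle b) (not_lt.1 fun h => hcP ?_)
        obtain ⟨d, rfl⟩ := hbc
        exact P.mul_mem_right _ ((hPm b).2 h)
      apply hvx
      rw [hab, map_div₀, ha1, hb1, div_one]
    · rintro v ⟨hD, hmin, -⟩ v' ⟨hD', hmin', -⟩ hvv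
      obtain ⟨P, hP, h1, hPm, hvP⟩ := hcen v hD hmin
      obtain ⟨P', hP', h1', hPm', hvP'⟩ := hcen v' hD' hmin'
      have hPP : P = P' := by
        ext z
        rw [hPm, hPm']
        exact Set.ext_iff.1 hvv z
      subst hPP
      rw [hvP, hvP']
  refine ((S.filter fun g => g ≠ 0).finite_toSet.biUnion (t := fun g =>
    {v : ValuationSubring K | Dv n H v ∧ IsMin v H g ∧ ∃ x ∈ X, v.valuation x ≠ 1})
    fun g hg => ?_).subset ?_
  · rw [Finset.mem_coe, Finset.mem_filter] at hg
    exact key g hg.1 hg.2
  · rintro v ⟨hD, hx⟩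
    have hS0 : ∃ x ∈ S, x ≠ 0 := by
      obtain ⟨-, -, g', hg', -⟩ := hD
      by_contra hcon
      push Not at hcon
      have h1 : H ≤ ⊥ := by
        rw [← hS, Submodule.span_le]
        intro x hx
        rw [hcon x hx]
        exact zero_mem _
      exact hg'.ne ((Submodule.mem_bot k).1 (h1 hg'.mem))
    obtain ⟨g, hgS, hgm⟩ := exists_isMin_mem hD.1 S hS0
    rw [hS] at hgm
    refine Set.mem_biUnion (x := g) ?_ ⟨hD, hgm, hx⟩
    rw [Finset.mem_coe, Finset.mem_filter]
    exact ⟨hgS, hgm.ne⟩

end Fin

/-- ROW FINH. -/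
theorem finhStmt (k K : Type u) [Field k] [Field K] [Algebra k K] (n : ℕ) : FinhStmt k K n := by
  intro _ hK htr hn H hfg hb X hX
  exact finite_dv hK htr hn hfg hb X hX

end Pool.Agent.TG9h22
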