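import Pool.Agent.Lib.TG9_h22.Abh
import Pool.Agent.Lib.TG_h86.Gen

/-!
# TANK G: counting parameters
-/

set_option autoImplicit false

namespace Pool.Agent.TG9h22

open Pool.Agent.TG IntermediateField

universe u

section Trd

variable {κ k : Type u} [Field κ] [Field k] [Algebra κ k]

/-- The field generated by `S` is algebraic over the subalgebra generated by `S`. -/
theorem alg_adjoin (S : Set k) :
    Algebra.IsAlgebraic (Algebra.adjoin κ {x : adjoin κ S | (x : k) ∈ S}) (adjoin κ S) := by
  constructor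
  intro x
  rw [← IntermediateField.isAlgebraic_adjoin_iff]
  refine LU3.R2b.alg_transfer (adjoin κ S) _ S ?_ x ?_
  · intro y hy
    exact ⟨⟨y, subset_adjoin _ _ hy⟩, subset_adjoin _ _ hy, rfl⟩
  · exact isAlgebraic_algebraMap (⟨(x : k), x.2⟩ : adjoin κ S)

/-- The transcendence degree of the field generated by `S` is the maximal number of algebraically
independent elements of `S`. -/
theorem trdeg_adjoin_le (S : Set k) (m : ℕ)
    (h : ∀ q : ℕ, ∀ x : Fin q → k, (∀ i, x i ∈ S) → AlgebraicIndependent κ x → q ≤ m) :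
    Algebra.trdeg κ (adjoin κ S) ≤ (m : Cardinal.{u}) := by
  classical
  have := alg_adjoin (κ := κ) S
  obtain ⟨t, hts, ht⟩ := exists_isTranscendenceBasis_subset (R := κ)
    {x : adjoin κ S | (x : k) ∈ S}
  rw [← ht.cardinalMk_eq_trdeg]
  by_contra hlt
  rw [not_le] at hlt
  have h1 : ((m + 1 : ℕ) : Cardinal.{u}) ≤ Cardinal.mk t := by
    have h2 := Order.succ_le_of_lt hlt
    rw [Cardinal.succ_natCast] at h2
    exact_mod_cast h2
  obtain ⟨e⟩ : Nonempty (Fin (m + 1) ↪ t) := by
    have h2 : Cardinal.lift.{u} (Cardinal.mk (Fin (m + 1))) ≤ Cardinal.lift.{0} (Cardinal.mk t) := by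
      rw [Cardinal.mk_fin, Cardinal.lift_natCast, Cardinal.lift_id'.{0, u}]
      exact h1
    exact Cardinal.lift_mk_le'.1 h2
  have h3 : AlgebraicIndependent κ (fun i : Fin (m + 1) => ((e i : adjoin κ S) : k)) := by
    have h4 : AlgebraicIndependent κ (fun i : Fin (m + 1) => (e i : adjoin κ S)) :=
      ht.1.comp e e.injective
    exact h4.map' (f := (adjoin κ S).val) (adjoin κ S).val.injective
  have := h (m + 1) _ (fun i => hts (e i).2) h3
  omega

theorem trdeg_adjoin_le_card (S : Finset k) :
    Algebra.trdeg κ (adjoin κ (S : Set k)) ≤ (S.card : Cardinal.{u}) := by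
  classical
  refine trdeg_adjoin_le _ _ fun q x hx hi => ?_
  have h1 : (Finset.univ.image x).card = q := by
    rw [Finset.card_image_of_injective _ hi.injective, Finset.card_univ, Fintype.card_fin]
  rw [← h1]
  refine Finset.card_le_card fun y hy => ?_
  obtain ⟨i, -, rfl⟩ := Finset.mem_image.1 hy
  exact hx i

theorem trdeg_adjoin_range {ι : Type*} [Fintype ι] (x : ι → k) :
    Algebra.trdeg κ (adjoin κ (Set.range x)) ≤ (Fintype.card ι : Cardinal.{u}) := by
  classical
  have h1 := trdeg_adjoin_le_card (κ := κ) (Finset.univ.image x)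
  rw [Finset.coe_image, Finset.coe_univ, Set.image_univ] at h1
  refine h1.trans ?_
  exact_mod_cast (Finset.card_image_le.trans (by rw [Finset.card_univ]))

/-- Algebraically independent elements of a field are not more than its transcendence degree. -/
theorem card_le_of_algInd {F : IntermediateField κ k} {N : ℕ}
    (hF : Algebra.trdeg κ F ≤ (N : Cardinal.{u})) {ι : Type*} [Fintype ι] {c : ι → k}
    (hc : AlgebraicIndependent κ c) (h : ∀ i, c i ∈ F) : Fintype.card ι ≤ N := by
  let e := Fintype.equivFin ι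
  let c' : Fin (Fintype.card ι) → F := fun i => ⟨c (e.symm i), h _⟩
  have h1 : AlgebraicIndependent κ c' := by
    have h2 : AlgebraicIndependent κ ((F.val : F →ₐ[κ] k) ∘ c') :=
      hc.comp e.symm e.symm.injective
    exact h2.of_comp _
  have h2 := h1.lift_cardinalMk_le_trdeg
  rw [Cardinal.mk_fin, Cardinal.lift_natCast, Cardinal.lift_id'.{0, u}] at h2
  exact_mod_cast h2.trans hF

end Trd

section Tower

variable {k₁ k : Type u} [Field k₁] [Field k] [Algebra k₁ k]

theorem trdeg_restrict {κ : IntermediateField k₁ k} {N m : ℕ}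
    (hκ : Algebra.trdeg k₁ κ ≤ (N : Cardinal.{u})) (F : IntermediateField κ k)
    (hF : Algebra.trdeg κ F ≤ (m : Cardinal.{u})) :
    Algebra.trdeg k₁ (F.restrictScalars k₁) ≤ ((N + m : ℕ) : Cardinal.{u}) := by
  have h3 : Algebra.trdeg k₁ κ + Algebra.trdeg κ F = Algebra.trdeg k₁ F := trdeg_add_eq k₁ κ
  have h4 : Algebra.trdeg k₁ (F.restrictScalars k₁) = Algebra.trdeg k₁ F := rfl
  rw [h4, ← h3]
  push_cast
  exact add_le_add hκ hF

variable {K : Type u} [Field K] [Algebra k K] [Algebra k₁ K] [IsScalarTower k₁ k K]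

/-- The compositum of `κ` and `K₁` has transcendence degree at most `n` over `κ`. -/
theorem trdeg_comp (κ : IntermediateField k₁ k) (K₁ : IntermediateField k₁ K) {n : ℕ}
    (hK : Algebra.trdeg k₁ K₁ ≤ (n : Cardinal.{u})) :
    Algebra.trdeg κ (adjoin κ (K₁ : Set K)) ≤ (n : Cardinal.{u}) := by
  refine trdeg_adjoin_le _ _ fun q x hx hi => ?_
  have h1 : AlgebraicIndependent k₁ x :=
    hi.restrictScalars (algebraMap k₁ κ).injective
  have := card_le_of_algInd hK h1 hx
  rwa [Fintype.card_fin] at this

end Tower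

section Res2

variable {κ k K : Type u} [Field κ] [Field k] [Field K] [Algebra κ k] [Algebra k K] [Algebra κ K]
  [IsScalarTower κ k K]

/-- The field generated over `κ` by residues of elements of `L` has transcendence degree at most
`trdeg κ L`, and at most `trdeg κ L - 1` if the valuation is nontrivial on `L`. -/
theorem trdeg_residues {V : ValuationSubring K} (hV : Ov k V) 
    (L : IntermediateField κ K) {n : ℕ} (hL : Algebra.trdeg κ L ≤ (n : Cardinal.{u})) (R : Set k)
    (hR : ∀ ρ ∈ R, ∃ f ∈ L, Cg V f (algebraMap k K ρ)) :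
    Algebra.trdeg κ (adjoin κ R) ≤ (n : Cardinal.{u}) ∧
    ((∃ π ∈ L, π ≠ 0 ∧ V.valuation π < 1) →
      1 ≤ n ∧ Algebra.trdeg κ (adjoin κ R) ≤ ((n - 1 : ℕ) : Cardinal.{u})) := by
  refine ⟨trdeg_adjoin_le _ _ fun q x hx hi => ?_, ?_⟩
  · choose f hf hfx using fun i => hR (x i) (hx i)
    have h1 := algInd_of_res (κ := κ) hV hfx hi
    have := card_le_of_algInd hL h1 hf
    rwa [Fintype.card_fin] at this
  · rintro ⟨π, hπL, hπ, hπ1⟩
    have key : ∀ q : ℕ, ∀ x : Fin q → k, (∀ i, x i ∈ R) → AlgebraicIndependent κ x →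
        q + 1 ≤ n := by
      intro q x hx hi
      choose f hf hfx using fun i => hR (x i) (hx i)
      have h1 := algInd_option (κ := κ) hV hfx hi hπ hπ1
      have := card_le_of_algInd hL h1 (by
        rintro (_ | i)
        · exact hπL
        · exact hf i)
      rwa [Fintype.card_option, Fintype.card_fin] at this
    have h0 : 1 ≤ n := by
      have := key 0 Fin.elim0 (fun i => i.elim0) (algebraicIndependent_empty_type)
      omega
    exact ⟨h0, trdeg_adjoin_le _ _ fun q x hx hi => by have := key q x hx hi; omega⟩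

end Res2

end Pool.Agent.TG9h22
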