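import Pool.Agent.Lib.TG9_h22.KrB
import Pool.Agent.Lib.TG9.Defs

/-!
# TANK G, track BC9, row KR: the divisors of the model are enough
-/

set_option autoImplicit false

open MvPolynomial

namespace Pool.Agent.TG9h22

open Pool.Agent.TG51 Pool.Agent.TG Pool.Agent.TG9

universe u

variable {k K : Type u} [Field k] [Field K] [Algebra k K]

theorem RInd.comp {V : ValuationSubring K} {ι κ : Type} {x : ι → K} (h : RInd k V x) {g : κ → ι}
    (hg : Function.Injective g) : RInd k V (x ∘ g) := by
  intro P hP
  rw [← aeval_rename]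
  exact h _ fun h0 => hP ((map_eq_zero_iff _ (rename_injective g hg)).1 h0)

theorem mem_of_isIntegral {R : Type u} [CommRing R] [Algebra R K] {V : ValuationSubring K}
    (h : ∀ a : R, algebraMap R K a ∈ V) {z : K} (hz : IsIntegral R z) : z ∈ V := by
  obtain ⟨p, hp, h0⟩ := hz
  let ψ : R →+* V := (algebraMap R K).codRestrict V.toSubring h
  have h1 : IsIntegral V z := by
    refine ⟨p.map ψ, hp.map ψ, ?_⟩
    rw [Polynomial.eval₂_map]
    exact h0
  obtain ⟨a, ha⟩ := IsIntegrallyClosed.isIntegral_iff.1 h1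
  rw [← ha]
  exact a.2

/-- If the ratios of `H` generate `K` and are algebraic over `R`, then `K` is algebraic over
`R`. -/
theorem isAlgebraic_of_bir {R : Type u} [CommRing R] [IsDomain R] [Algebra k R] [Algebra R K]
    [IsScalarTower k R K] {H : Submodule k K} (hb : Bir H) {g : K} (hg0 : g ≠ 0)
    (h : ∀ x ∈ H, IsAlgebraic R (x / g)) (x : K) : IsAlgebraic R x := by
  let F : IntermediateField k K :=
    { carrier := {x | IsAlgebraic R x}
      mul_mem' := fun ha hb => IsAlgebraic.mul ha hb
      add_mem' := fun ha hb => IsAlgebraic.add ha hb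
      algebraMap_mem' := fun c => by
        rw [IsScalarTower.algebraMap_apply k R K]
        exact isAlgebraic_algebraMap _
      inv_mem' := fun x hx => IsAlgebraic.inv hx }
  have hF : (⊤ : IntermediateField k K) ≤ F := by
    rw [← hb, IntermediateField.adjoin_le_iff]
    rintro _ ⟨b, hb, a, ha, rfl⟩
    have h1 : a / b = (a / g) * (b / g)⁻¹ := by
      rcases eq_or_ne b 0 with rfl | hb0
      · simp
      · field_simp
    rw [h1]
    exact IsAlgebraic.mul (h a ha) (IsAlgebraic.inv (h b hb))
  exact hF (IntermediateField.mem_top (x := x))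

theorem krStmt (k K : Type u) [Field k] [Field K] [Algebra k K] (n : ℕ) : KrStmt k K n := by
  intro _ _ htr hn H hfg hb N f hf V hV
  classical
  rcases eq_or_ne f 0 with rfl | hf0
  · exact Or.inl rfl
  have hne : H ≠ ⊥ := by
    rintro rfl
    have h1 : (⊤ : IntermediateField k K) ≤ ⊥ := by
      rw [← hb, IntermediateField.adjoin_le_iff]
      rintro _ ⟨a, ha, b, hb', rfl⟩
      rw [Submodule.mem_bot] at ha
      rw [ha, div_zero]
      exact zero_mem _
    have h2 : Algebra.IsAlgebraic k K := by
      refine ⟨fun x => ?_⟩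
      obtain ⟨c, rfl⟩ := IntermediateField.mem_bot.1 (h1 (IntermediateField.mem_top (x := x)))
      exact isAlgebraic_algebraMap c
    rw [_root_.trdeg_eq_zero] at htr
    have : n = 0 := by exact_mod_cast htr.symm
    omega
  have hH : IsModel H := ⟨hfg, hne⟩
  obtain ⟨g, hg⟩ := exists_isMin hV hH
  have hAV := ch_le hV hg
  have hgN : f / g ^ N ∈ V → Ge V f (H ^ N) := by
    intro h
    refine Or.inr ⟨g ^ N, Submodule.pow_mem_pow H hg.mem N, ?_⟩
    rw [← V.valuation_le_one_iff, map_div₀] at h
    exact (div_le_one₀ (zero_lt_iff.2 ((Valuation.ne_zero_iff _).2 (pow_ne_zero _ hg.ne)))).1 h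
  apply hgN
  set x : K := f / g ^ N with hx
  set A := ch H g with hA
  have hAfg : A.FG := ch_fg hfg
  have hft : Algebra.FiniteType k A := (Subalgebra.fg_iff_finiteType A).1 hAfg
  obtain ⟨s, φ, hφi, hφint⟩ := exists_integral_inj_algHom_of_fg k A
  let R := MvPolynomial (Fin s) k
  let φK : R →ₐ[k] K := A.val.comp φ
  have hφKi : Function.Injective φK := Subtype.val_injective.comp hφi
  let _ : Algebra R K := φK.toRingHom.toAlgebra
  let _ : Algebra R A := φ.toRingHom.toAlgebra
  have htw : IsScalarTower R A K := IsScalarTower.of_algebraMap_eq fun _ => rfl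
  have htk : IsScalarTower k R K := IsScalarTower.of_algebraMap_eq fun c => by
    show algebraMap k K c = φK (algebraMap k R c)
    rw [AlgHom.commutes]
  have hfaith : FaithfulSMul R K := (faithfulSMul_iff_algebraMap_injective R K).2 hφKi
  have hRA : ∀ a ∈ A, IsIntegral R a := by
    intro a ha
    have h1 : IsIntegral R (⟨a, ha⟩ : A) := hφint ⟨a, ha⟩
    exact h1.algebraMap (B := K)
  have hgen : ∀ z ∈ H, z / g ∈ A := fun z hz => div_mem_ch hz
  have halg : ∀ z : K, IsAlgebraic R z :=
    isAlgebraic_of_bir hb hg.ne fun z hz => (hRA _ (hgen z hz)).isAlgebraic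
  have hs : s = n := by
    have h1 : Algebra.IsAlgebraic R K := ⟨halg⟩
    have h2 : Algebra.trdeg k R + Algebra.trdeg R K = Algebra.trdeg k K := trdeg_add_eq k R
    rw [_root_.trdeg_eq_zero (R := R) (A := K), add_zero, MvPolynomial.trdeg_of_isDomain,
      Cardinal.mk_fin, Cardinal.lift_natCast, htr] at h2
    exact_mod_cast h2
  by_cases hni : IsIntegral R x
  · exact mem_of_isIntegral (R := R) (fun a => hAV _ (φ a).2) hni
  exfalso
  obtain ⟨P, hP, hP1, V', hRV, hPV, hxV⟩ := exists_val_height_one (halg x) hni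
  obtain ⟨i, hi⟩ := exists_var hP1
  have hOv : Ov k V' := by
    intro c
    rw [IsScalarTower.algebraMap_apply k R K]
    exact hRV _
  have hAV' : ∀ a ∈ A, a ∈ V' := fun a ha => mem_of_isIntegral hRV (hRA a ha)
  have hind : RInd k V' (fun j : {j : Fin s // j ≠ i} => φK (X j.1)) := by
    intro Q hQ
    have h1 : aeval (fun j : {j : Fin s // j ≠ i} => φK (X j.1)) Q = φK (rename Subtype.val Q) := by
      rw [← AlgHom.comp_apply]
      congr 1
      ext j
      show aeval (fun j : {j : Fin s // j ≠ i} => φK (X j.1)) (X j) = φK (rename Subtype.val (X j))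
      rw [rename_X, aeval_X]
    rw [h1]
    exact hPV _ (hi Q hQ)
  have hcard : Fintype.card {j : Fin s // j ≠ i} = n - 1 := by
    rw [Fintype.card_subtype_compl, Fintype.card_fin, Fintype.card_unique, hs]
  let e : Fin (n - 1) ≃ {j : Fin s // j ≠ i} := (Fintype.equivFinOfCardEq hcard).symm
  have hind' := hind.comp e.injective
  obtain ⟨w, hwE, hwi⟩ := exists_rind hOv (E := (fun z => z / g) '' (H : Set K))
    (by rintro _ ⟨z, hz, rfl⟩; exact hAV' _ (hgen z hz)) (fun j => (φ (X (e j).1)).2) hind'
  choose h hhH hhw using hwE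
  have hmin : IsMin V' H g := ⟨hg.mem, hg.ne, fun z hz => hAV' _ (hgen z hz)⟩
  have hD : Dv n H V' := by
    refine ⟨hOv, ?_, g, hmin, h, hhH, fun Q hQ => ?_⟩
    · rintro rfl
      exact hxV trivial
    · have h1 : (fun i => h i / g) = w := funext hhw
      rw [h1]
      exact hwi Q hQ
  rcases hf V' hD with h0 | ⟨y, hy, hfy⟩
  · exact hf0 h0
  apply hxV
  have h1 : y / g ^ N ∈ V' := (hmin.pow hOv N).div y hy
  rw [← V'.valuation_le_one_iff, map_div₀] at h1 ⊢
  exact (div_le_div_of_nonneg_right hfy zero_le).trans h1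

end Pool.Agent.TG9h22
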