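import Pool.Agent.Lib.TG.Basic

/-!
# TANK G: the Abhyankar inequality for zero-dimensional valuation rings

`κ ⊆ k ⊆ K`, `V` a valuation ring of `K` containing `k`. If `f i ∈ K` have residues `c i ∈ k` which
are algebraically independent over `κ`, then the `f i` are algebraically independent over `κ`, and
every nonzero element of positive value is transcendental over `κ[f]`.
-/

set_option autoImplicit false

open MvPolynomial

namespace Pool.Agent.TG9h22

open Pool.Agent.TG

universe u

section Res

variable {κ k K : Type u} [Field κ] [Field k] [Field K] [Algebra κ k] [Algebra k K] [Algebra κ K]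
  [IsScalarTower κ k K] {V : ValuationSubring K}

theorem val_const (hV : Ov k V) {c : k} (hc : c ≠ 0) : V.valuation (algebraMap k K c) = 1 := by
  have h1 : V.valuation (algebraMap k K c) ≤ 1 := (V.valuation_le_one_iff _).2 (hV c)
  have h2 : V.valuation (algebraMap k K c⁻¹) ≤ 1 := (V.valuation_le_one_iff _).2 (hV c⁻¹)
  have h0 : V.valuation (algebraMap k K c) ≠ 0 := by
    rw [Valuation.ne_zero_iff]
    exact (map_ne_zero_iff _ (algebraMap k K).injective).2 hc
  rw [map_inv₀, map_inv₀, inv_le_one₀ (zero_lt_iff.2 h0)] at h2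
  exact le_antisymm h1 h2

/-- Congruence modulo the maximal ideal of `V`. -/
def Cg (V : ValuationSubring K) (a b : K) : Prop := V.valuation (a - b) < 1

theorem Cg.add {a b a' b' : K} (h : Cg V a b) (h' : Cg V a' b') : Cg V (a + a') (b + b') := by
  have : a + a' - (b + b') = (a - b) + (a' - b') := by ring
  unfold Cg
  rw [this]
  exact Valuation.map_add_lt _ h h'

theorem Cg.mul {a b a' b' : K} (h : Cg V a b) (h' : Cg V a' b') (ha' : V.valuation a' ≤ 1)
    (hb : V.valuation b ≤ 1) : Cg V (a * a') (b * b') := by
  have : a * a' - b * b' = (a - b) * a' + b * (a' - b') := by ring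
  unfold Cg
  rw [this]
  refine Valuation.map_add_lt _ ?_ ?_
  · rw [map_mul]
    exact mul_lt_one_of_lt_of_le h ha'
  · rw [map_mul]
    exact mul_lt_one_of_nonneg_of_lt_one_right hb zero_le h'

theorem Cg.le_one {a b : K} (h : Cg V a b) (hb : V.valuation b ≤ 1) : V.valuation a ≤ 1 := by
  have : a = (a - b) + b := by ring
  rw [this]
  exact (V.valuation.map_add _ _).trans (max_le (le_of_lt h) hb)

theorem cg_aeval (hV : Ov k V) {ι : Type*} {f : ι → K} {c : ι → k}
    (hf : ∀ i, Cg V (f i) (algebraMap k K (c i))) (Q : MvPolynomial ι κ) :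
    Cg V (aeval f Q) (algebraMap k K (aeval c Q)) := by
  have hle : ∀ x : k, V.valuation (algebraMap k K x) ≤ 1 := fun x =>
    (V.valuation_le_one_iff _).2 (hV x)
  induction Q using MvPolynomial.induction_on with
  | C a =>
    have : aeval f (C a : MvPolynomial ι κ) = algebraMap k K (aeval c (C a)) := by
      rw [aeval_C, aeval_C, ← IsScalarTower.algebraMap_apply]
    rw [this]
    unfold Cg
    rw [sub_self, map_zero]
    exact zero_lt_one
  | add p q hp hq =>
    rw [map_add, map_add, map_add]
    exact hp.add hq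
  | mul_X p i hp =>
    rw [map_mul, map_mul, map_mul, aeval_X, aeval_X]
    exact hp.mul (hf i) ((hf i).le_one (hle _)) (hle _)

theorem val_aeval (hV : Ov k V) {ι : Type*} {f : ι → K} {c : ι → k}
    (hf : ∀ i, Cg V (f i) (algebraMap k K (c i))) (hc : AlgebraicIndependent κ c)
    {Q : MvPolynomial ι κ} (hQ : Q ≠ 0) : V.valuation (aeval f Q) = 1 := by
  have h1 : aeval c Q ≠ 0 := fun h => hQ ((algebraicIndependent_iff.1 hc) Q h)
  have h2 := cg_aeval hV hf Q
  have h3 := val_const hV h1 (K := K)
  have : aeval f Q = algebraMap k K (aeval c Q) + (aeval f Q - algebraMap k K (aeval c Q)) := by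
    ring
  rw [this, Valuation.map_add_eq_of_lt_left]
  · exact h3
  · rw [h3]
    exact h2

theorem algInd_of_res (hV : Ov k V) {ι : Type*} {f : ι → K} {c : ι → k}
    (hf : ∀ i, Cg V (f i) (algebraMap k K (c i))) (hc : AlgebraicIndependent κ c) :
    AlgebraicIndependent κ f := by
  refine algebraicIndependent_iff.2 fun Q hQ => ?_
  by_contra h
  have := val_aeval hV hf hc h
  rw [hQ, map_zero] at this
  exact zero_ne_one this

/-- If the nonzero elements of `A` are units of `V`, an element of positive value is transcendental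
over `A`. -/
theorem transcendental_of_units {A : Subalgebra κ K} (hA : ∀ a ∈ A, a ≠ 0 → V.valuation a = 1)
    {π : K} (hπ : π ≠ 0) (hπ1 : V.valuation π < 1) : Transcendental A π := by
  rintro ⟨P, hP, h0⟩
  classical
  set m := P.natTrailingDegree with hm
  have hc : (P.coeff m : K) ≠ 0 := by
    have : P.coeff m ≠ 0 := by
      rw [hm]
      exact Polynomial.trailingCoeff_eq_zero.not.2 hP
    exact fun h => this (Subtype.ext h)
  have h1 : V.valuation (P.coeff m : K) = 1 := hA _ (P.coeff m).2 hc
  rw [Polynomial.aeval_eq_sum_range] at h0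
  have hs : ∀ i ∈ Finset.range (P.natDegree + 1), i ≠ m →
      V.valuation (P.coeff i • π ^ i) < V.valuation π ^ m := by
    intro i _ hi
    rcases lt_or_gt_of_ne hi with h | h
    · rw [Polynomial.coeff_eq_zero_of_lt_natTrailingDegree h, zero_smul, map_zero]
      exact pow_pos (zero_lt_iff.2 ((Valuation.ne_zero_iff _).2 hπ)) _
    · have h2 : V.valuation (P.coeff i : K) ≤ 1 := by
        rcases eq_or_ne (P.coeff i : K) 0 with h3 | h3
        · rw [h3, map_zero]; exact zero_le
        · exact (hA _ (P.coeff i).2 h3).le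
      have h3 : P.coeff i • π ^ i = (P.coeff i : K) * π ^ i := rfl
      rw [h3, map_mul, map_pow]
      refine (mul_le_of_le_one_left' h2).trans_lt ?_
      exact pow_lt_pow_right_of_lt_one₀ (zero_lt_iff.2 ((Valuation.ne_zero_iff _).2 hπ)) hπ1 h
  have hmm : m ∈ Finset.range (P.natDegree + 1) := by
    rw [Finset.mem_range]
    exact Nat.lt_succ_of_le (Polynomial.natTrailingDegree_le_natDegree P)
  rw [← Finset.add_sum_erase _ _ hmm] at h0
  have h4 : V.valuation (P.coeff m • π ^ m) = V.valuation π ^ m := by
    have h3 : P.coeff m • π ^ m = (P.coeff m : K) * π ^ m := rfl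
    rw [h3, map_mul, map_pow, h1, one_mul]
  have h5 : V.valuation (∑ i ∈ (Finset.range (P.natDegree + 1)).erase m, P.coeff i • π ^ i) <
      V.valuation π ^ m := by
    refine Valuation.map_sum_lt _ (pow_ne_zero _ ((Valuation.ne_zero_iff _).2 hπ)) fun i hi => ?_
    exact hs i (Finset.mem_of_mem_erase hi) (Finset.ne_of_mem_erase hi)
  have h6 := eq_neg_of_add_eq_zero_left h0
  have h7 : V.valuation (P.coeff m • π ^ m) =
      V.valuation (∑ i ∈ (Finset.range (P.natDegree + 1)).erase m, P.coeff i • π ^ i) := by
    rw [h6, Valuation.map_neg]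
  rw [h4] at h7
  exact absurd h7 (ne_of_gt h5)

/-- The Abhyankar inequality: algebraic independence with one more element of positive value. -/
theorem algInd_option (hV : Ov k V) {ι : Type*} {f : ι → K} {c : ι → k}
    (hf : ∀ i, Cg V (f i) (algebraMap k K (c i))) (hc : AlgebraicIndependent κ c)
    {π : K} (hπ : π ≠ 0) (hπ1 : V.valuation π < 1) :
    AlgebraicIndependent κ (fun o : Option ι => o.elim π f) := by
  have h1 := algInd_of_res hV hf hc
  rw [h1.option_iff_transcendental]
  refine transcendental_of_units ?_ hπ hπ1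
  intro a ha ha0
  rw [Algebra.adjoin_range_eq_range_aeval] at ha
  obtain ⟨Q, rfl⟩ := ha
  exact val_aeval hV hf hc (by rintro rfl; exact ha0 (map_zero _))

end Res

end Pool.Agent.TG9h22
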