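import Pool.Agent.Lib.TG_h51.KrullV

/-!
# An element which is not integral over a normal noetherian domain has a pole over a prime of
height one
-/

set_option autoImplicit false

namespace Pool.Agent.TG9h22

open Pool.Agent.TG51

universe u v

/-- If `x ∈ K` is algebraic and not integral over the normal noetherian domain `R`, there are a
prime `P` of height one of `R` and a valuation ring `V` of `K` over `R_P` with `x ∉ V`. -/
theorem exists_val_height_one {R : Type u} {K : Type v} [CommRing R] [IsDomain R]
    [IsNoetherianRing R] [IsIntegrallyClosed R] [Field K] [Algebra R K] [FaithfulSMul R K] {x : K}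
    (hx : IsAlgebraic R x) (hni : ¬ IsIntegral R x) :
    ∃ (P : Ideal R) (_ : P.IsPrime), P.height = 1 ∧ ∃ V : ValuationSubring K,
      (∀ a : R, algebraMap R K a ∈ V) ∧ (∀ a ∉ P, V.valuation (algebraMap R K a) = 1) ∧
      x ∉ V := by
  classical
  let : Algebra (FractionRing R) K := FractionRing.liftAlgebra R K
  have : IsScalarTower R (FractionRing R) K := FractionRing.isScalarTower_liftAlgebra R K
  set F := FractionRing R
  have hxF : IsIntegral F x := (hx.extendScalars (IsFractionRing.injective R F)).isIntegral
  -- a coefficient which is not in `R`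
  obtain ⟨i, hi⟩ : ∃ i, ¬ ∃ a : R, algebraMap R F a = (minpoly F x).coeff i := by
    by_contra hcon
    push Not at hcon
    choose a ha using hcon
    apply hni
    have hl : minpoly F x ∈ Polynomial.lifts (algebraMap R F) := by
      rw [Polynomial.lifts_iff_coeff_lifts]
      exact fun n => ⟨a n, ha n⟩
    obtain ⟨q, hq, -, hqm⟩ := Polynomial.lifts_and_natDegree_eq_and_monic hl (minpoly.monic hxF)
    refine ⟨q, hqm, ?_⟩
    rw [← Polynomial.aeval_def]
    have h1 : Polynomial.aeval x (q.map (algebraMap R F)) = 0 := by rw [hq, minpoly.aeval]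
    rwa [Polynomial.aeval_map_algebraMap] at h1
  set c := (minpoly F x).coeff i with hc
  obtain ⟨P, hP, hP1, hcP⟩ : ∃ (P : Ideal R) (_ : P.IsPrime), P.height = 1 ∧
      ¬ InLoc P c := by
    by_contra hcon
    push Not at hcon
    exact hi (mem_of_height_one c fun P hP h1 => hcon P hP h1)
  refine ⟨P, hP, hP1, ?_⟩
  let O : ValuationSubring F := valP F P hP1
  have hO : IsIntegrallyClosed O := inferInstance
  let : Algebra O K := ((algebraMap F K).comp O.subtype).toAlgebra
  have htw : IsScalarTower O F K := IsScalarTower.of_algebraMap_eq fun _ => rfl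
  let S : Subring K := (integralClosure O K).toSubring
  have hxS : x ∉ S := by
    intro hxS
    have h1 : IsIntegral O x := hxS
    have h2 := minpoly.isIntegrallyClosed_eq_field_fractions' F h1
    apply hcP
    have h3 : c = algebraMap O F ((minpoly O x).coeff i) := by
      rw [hc, h2, Polynomial.coeff_map]
    rw [h3]
    exact ((minpoly O x).coeff i).2
  have hcl : IsIntegrallyClosedIn S K := inferInstanceAs
    (IsIntegrallyClosedIn (integralClosure O K).toSubring K)
  obtain ⟨V, hV, hxV⟩ := Subring.exists_le_valuationSubring_of_isIntegrallyClosedIn hxS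
  have hOV : ∀ y : F, y ∈ O → algebraMap F K y ∈ V := fun y hy =>
    hV (show IsIntegral O _ from isIntegral_algebraMap (R := O) (x := ⟨y, hy⟩))
  have hRV : ∀ a : R, algebraMap R K a ∈ V := by
    intro a
    rw [IsScalarTower.algebraMap_apply R F K]
    exact hOV _ (algebraMap_mem_valP hP1 a)
  refine ⟨V, hRV, fun a ha => ?_, hxV⟩
  have h1 : V.valuation (algebraMap R K a) ≤ 1 := (V.valuation_le_one_iff _).2 (hRV a)
  have h2 : (algebraMap R K a)⁻¹ ∈ V := by
    rw [IsScalarTower.algebraMap_apply R F K, ← map_inv₀]
    exact hOV _ (inv_mem_valP hP1 ha)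
  have h3 : V.valuation (algebraMap R K a) ≠ 0 := by
    rw [Valuation.ne_zero_iff]
    intro h0
    apply ha
    have : a = 0 := FaithfulSMul.algebraMap_injective R K (by rw [h0, map_zero])
    rw [this]
    exact P.zero_mem
  rw [← V.valuation_le_one_iff, map_inv₀, inv_le_one₀ (zero_lt_iff.2 h3)] at h2
  exact le_antisymm h1 h2

end Pool.Agent.TG9h22
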