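import Pool.Agent.Lib.TG9_h22.KrA
import Pool.Agent.Lib.TG9_h22.Trd

/-!
# Primes of height one of polynomial rings; exchange of residually independent elements
-/

set_option autoImplicit false

open MvPolynomial

namespace Pool.Agent.TG9h22

open Pool.Agent.TG51 Pool.Agent.TG

universe u

section Poly

variable {k : Type u} [Field k] {s : ℕ}

/-- A prime of height one of a polynomial ring does not contain nonzero polynomials in the other
variables, for a suitable variable. -/
theorem exists_var {P : Ideal (MvPolynomial (Fin s) k)} [hP : P.IsPrime] (h1 : P.height = 1) :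
    ∃ i : Fin s, ∀ Q : MvPolynomial {j // j ≠ i} k, Q ≠ 0 →
      rename (Subtype.val : {j // j ≠ i} → Fin s) Q ∉ P := by
  classical
  have hPb : P ≠ ⊥ := Ideal.ne_bot_of_height_eq_one h1
  obtain ⟨π, hπP, hπ⟩ := hP.exists_mem_prime_of_ne_bot hPb
  have hspan : Ideal.span {π} = P := by
    have h2 : Ideal.span {π} ≤ P := (Ideal.span_singleton_le_iff_mem _).2 hπP
    rcases eq_or_lt_of_le h2 with h3 | h3
    · exact h3
    · exfalso
      have : (Ideal.span {π}).IsPrime := (Ideal.span_singleton_prime hπ.ne_zero).2 hπ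
      have h4 := eq_bot_of_lt h1 h3
      rw [Ideal.span_singleton_eq_bot] at h4
      exact hπ.ne_zero h4
  obtain ⟨i, hi⟩ : ∃ i, i ∈ π.vars := by
    by_contra hcon
    push Not at hcon
    have h2 : π.vars = ∅ := Finset.eq_empty_of_forall_notMem hcon
    rw [vars_eq_empty_iff_eq_C] at h2
    apply hπ.not_isUnit
    rw [h2]
    refine (IsUnit.mk0 _ ?_).map C
    intro h0
    rw [h0, C_0] at h2
    exact hπ.ne_zero h2
  refine ⟨i, fun Q hQ hQP => ?_⟩
  rw [← hspan, Ideal.mem_span_singleton] at hQP
  obtain ⟨R, hR⟩ := hQP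
  have hQ0 : rename (Subtype.val : {j // j ≠ i} → Fin s) Q ≠ 0 := by
    intro h0
    exact hQ ((map_eq_zero_iff _ (rename_injective _ Subtype.val_injective)).1 h0)
  have hR0 : R ≠ 0 := by
    rintro rfl
    exact hQ0 (by rw [hR, mul_zero])
  have h3 : degreeOf i (rename (Subtype.val : {j // j ≠ i} → Fin s) Q) = 0 := by
    by_contra h4
    rw [← Ne, ← mem_vars_iff_degreeOf_ne_zero] at h4
    obtain ⟨j, -, hj⟩ := mem_vars_rename _ _ h4
    exact j.2 hj
  have h4 := degreeOf_mul_eq (n := i) hπ.ne_zero hR0
  rw [← hR, h3] at h4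
  rw [mem_vars_iff_degreeOf_ne_zero] at hi
  omega

end Poly

section Exch

variable {k K : Type u} [Field k] [Field K] [Algebra k K] {V : ValuationSubring K}

/-- The residues of the `x i` are algebraically independent over `k`. -/
def RInd (k : Type u) {K : Type u} [Field k] [Field K] [Algebra k K] (V : ValuationSubring K)
    {ι : Type} (x : ι → K) : Prop :=
  ∀ P : MvPolynomial ι k, P ≠ 0 → V.valuation (aeval x P) = 1

/-- `V` as an algebra over `k`. -/
abbrev valg (hV : Ov k V) : Algebra k V :=
  ((algebraMap k K).codRestrict V.toSubring hV).toAlgebra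

/-- residual independence and algebraic independence of the residues -/
theorem rind_iff (hV : Ov k V) {ι : Type} (x : ι → V) :
    letI := valg hV
    RInd k V (fun i => (x i : K)) ↔
      AlgebraicIndependent k (fun i => IsLocalRing.residue V (x i)) := by
  let _ := valg hV
  let f : V →ₐ[k] K := { V.subtype with commutes' := fun _ => rfl }
  let r : V →ₐ[k] IsLocalRing.ResidueField V :=
    { IsLocalRing.residue V with commutes' := fun _ => rfl }
  have h1 : ∀ P : MvPolynomial ι k, aeval (fun i => (x i : K)) P = (aeval x P : V) := by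
    intro P
    have : aeval (fun i => (x i : K)) P = f (aeval x P) := by
      rw [← AlgHom.comp_apply, comp_aeval]
      rfl
    exact this
  have h2 : ∀ P : MvPolynomial ι k, aeval (fun i => IsLocalRing.residue V (x i)) P =
      IsLocalRing.residue V (aeval x P) := by
    intro P
    have : aeval (fun i => IsLocalRing.residue V (x i)) P = r (aeval x P) := by
      rw [← AlgHom.comp_apply, comp_aeval]
      rfl
    exact this
  rw [algebraicIndependent_iff]
  constructor
  · intro h P hP
    by_contra hP0
    have h3 := h P hP0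
    rw [h1, ← ValuationSubring.valuation_eq_one_iff] at h3
    rw [h2, IsLocalRing.residue_eq_zero_iff] at hP
    exact (IsLocalRing.mem_maximalIdeal _).1 hP h3
  · intro h P hP0
    rw [h1, ← ValuationSubring.valuation_eq_one_iff]
    by_contra hu
    apply hP0
    apply h
    rw [h2, IsLocalRing.residue_eq_zero_iff]
    exact (IsLocalRing.mem_maximalIdeal _).2 hu

/-- Among generators one finds as many residually independent elements as in the residue field
generated by them. -/
theorem exists_rind' (hV : Ov k V) {E : Set K} (hE : ∀ x ∈ E, x ∈ V) {m : ℕ} {y : Fin m → K}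
    (hy : ∀ j, ∃ a ∈ Algebra.adjoin k E, ∃ b ∈ Algebra.adjoin k E, V.valuation b = 1 ∧ y j = a / b)
    (hind : RInd k V y) :
    ∃ w : Fin m → K, (∀ i, w i ∈ E) ∧ RInd k V w := by
  classical
  let _ := valg hV
  have hEV : ∀ a ∈ Algebra.adjoin k E, a ∈ V := by
    intro a ha
    induction ha using Algebra.adjoin_induction with
    | mem x hx => exact hE x hx
    | algebraMap c => exact hV c
    | add a b _ _ h1 h2 => exact V.add_mem _ _ h1 h2
    | mul a b _ _ h1 h2 => exact V.mul_mem _ _ h1 h2
  let S : Set (IsLocalRing.ResidueField V) :=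
    {z | ∃ x : V, (x : K) ∈ E ∧ z = IsLocalRing.residue V x}
  have h3 : ∀ a ∈ Algebra.adjoin k E, ∀ ha : a ∈ V,
      IsLocalRing.residue V ⟨a, ha⟩ ∈ IntermediateField.adjoin k S := by
    intro a ha
    induction ha using Algebra.adjoin_induction with
    | mem x hx =>
      intro ha
      exact IntermediateField.subset_adjoin _ _ ⟨⟨x, ha⟩, hx, rfl⟩
    | algebraMap c =>
      intro ha
      exact (IntermediateField.adjoin k S).algebraMap_mem c
    | add a b ha hb h1 h2 =>
      intro hab
      have : (⟨a + b, hab⟩ : V) = ⟨a, hEV a ha⟩ + ⟨b, hEV b hb⟩ := rfl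
      rw [this, map_add]
      exact add_mem (h1 _) (h2 _)
    | mul a b ha hb h1 h2 =>
      intro hab
      have : (⟨a * b, hab⟩ : V) = ⟨a, hEV a ha⟩ * ⟨b, hEV b hb⟩ := rfl
      rw [this, map_mul]
      exact mul_mem (h1 _) (h2 _)
  have hyV : ∀ j, y j ∈ V := by
    intro j
    obtain ⟨a, ha, b, hb, hb1, hab⟩ := hy j
    rw [hab, ← V.valuation_le_one_iff, map_div₀, hb1, div_one]
    exact (V.valuation_le_one_iff _).2 (hEV a ha)
  let y' : Fin m → V := fun j => ⟨y j, hyV j⟩
  have h1 : AlgebraicIndependent k (fun j => IsLocalRing.residue V (y' j)) :=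
    (rind_iff hV y').1 hind
  have h2 : ∀ j, IsLocalRing.residue V (y' j) ∈ IntermediateField.adjoin k S := by
    intro j
    obtain ⟨a, ha, b, hb, hb1, hab⟩ := hy j
    have hbu : IsUnit (⟨b, hEV b hb⟩ : V) := (V.valuation_eq_one_iff _).2 hb1
    have hb0 : b ≠ 0 := by
      rintro rfl
      rw [map_zero] at hb1
      exact zero_ne_one hb1
    have h4 : y' j * ⟨b, hEV b hb⟩ = ⟨a, hEV a ha⟩ := by
      apply Subtype.ext
      show y j * b = a
      rw [hab, div_mul_cancel₀ _ hb0]
    have h5 : IsLocalRing.residue V (y' j) = IsLocalRing.residue V ⟨a, hEV a ha⟩ /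
        IsLocalRing.residue V ⟨b, hEV b hb⟩ := by
      rw [eq_div_iff ((IsLocalRing.residue_ne_zero_iff_isUnit _).2 hbu), ← map_mul, h4]
    rw [h5]
    exact div_mem (h3 a ha _) (h3 b hb _)
  rcases Nat.eq_zero_or_pos m with rfl | hm
  · exact ⟨Fin.elim0, fun i => i.elim0, by
      have : (Fin.elim0 : Fin 0 → K) = y := funext fun i => i.elim0
      rw [this]
      exact hind⟩
  obtain ⟨q, x, hx, hxi, hq⟩ : ∃ (q : ℕ) (x : Fin q → IsLocalRing.ResidueField V),
      (∀ i, x i ∈ S) ∧ AlgebraicIndependent k x ∧ m ≤ q := by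
    by_contra hcon
    push Not at hcon
    have h3 : Algebra.trdeg k (IntermediateField.adjoin k S) ≤ ((m - 1 : ℕ) : Cardinal.{u}) :=
      trdeg_adjoin_le S (m - 1) fun q x hx hxi => by
        have := hcon q x hx hxi
        omega
    have h4 := card_le_of_algInd h3 h1 h2
    rw [Fintype.card_fin] at h4
    omega
  choose z hz hzx using hx
  refine ⟨fun i => (z (Fin.castLE hq i) : K), fun i => hz _, ?_⟩
  rw [rind_iff hV (fun i => z (Fin.castLE hq i))]
  have h3 : (fun i => IsLocalRing.residue V (z (Fin.castLE hq i))) = x ∘ Fin.castLE hq :=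
    funext fun i => (hzx _).symm
  rw [h3]
  exact hxi.comp _ (Fin.castLE_injective hq)

/-- Among generators one finds as many residually independent elements as in the algebra. -/
theorem exists_rind (hV : Ov k V) {E : Set K} (hE : ∀ x ∈ E, x ∈ V) {m : ℕ} {y : Fin m → K}
    (hy : ∀ j, y j ∈ Algebra.adjoin k E) (hind : RInd k V y) :
    ∃ w : Fin m → K, (∀ i, w i ∈ E) ∧ RInd k V w :=
  exists_rind' hV hE (fun j => ⟨y j, hy j, 1, one_mem _, map_one _, (div_one _).symm⟩) hind

end Exch

end Pool.Agent.TG9h22
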