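import Pool.Agent.Lib.TG9_h22.FinH

/-!
# TANK G, track BC9: a valuation ring with `n - 1` residually independent elements in the local
ring of (the normalisation of) the model is a divisor of the model
-/

set_option autoImplicit false

open MvPolynomial

namespace Pool.Agent.TG9h22

open Pool.Agent.TG51 Pool.Agent.TG Pool.Agent.TG9 Pool.Agent.LU2

universe u

variable {k K : Type u} [Field k] [Field K] [Algebra k K] {V : ValuationSubring K}

/-- Exchange, for elements of the local ring of the normalisation. -/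
theorem exists_rind_alg (hV : Ov k V) {E : Set K} (hE : ∀ x ∈ E, x ∈ V) {m : ℕ} {y : Fin m → K}
    (hy : ∀ j, y j ∈ locV V (ncl (locV V (Algebra.adjoin k E)))) (hind : RInd k V y) :
    ∃ w : Fin m → K, (∀ i, w i ∈ E) ∧ RInd k V w := by
  classical
  let _ := valg hV
  set A := Algebra.adjoin k E with hA
  have hAV : ∀ a ∈ A, a ∈ V := by
    intro a ha
    induction ha using Algebra.adjoin_induction with
    | mem x hx => exact hE x hx
    | algebraMap c => exact hV c
    | add a b _ _ h1 h2 => exact V.add_mem _ _ h1 h2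
    | mul a b _ _ h1 h2 => exact V.mul_mem _ _ h1 h2
  have hRV : ∀ a ∈ locV V A, a ∈ V := locV_mem hAV
  have hCV : ∀ a ∈ ncl (locV V A), a ∈ V := ncl_mem hRV
  have hyV : ∀ j, y j ∈ V := fun j => locV_mem hCV _ (hy j)
  let S : Set (IsLocalRing.ResidueField V) :=
    {z | ∃ x : V, (x : K) ∈ E ∧ z = IsLocalRing.residue V x}
  set F := IntermediateField.adjoin k S with hF
  have h3 : ∀ a ∈ A, ∀ ha : a ∈ V, IsLocalRing.residue V ⟨a, ha⟩ ∈ F := by
    intro a ha
    induction ha using Algebra.adjoin_induction with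
    | mem x hx =>
      intro ha
      exact IntermediateField.subset_adjoin _ _ ⟨⟨x, ha⟩, hx, rfl⟩
    | algebraMap c =>
      intro ha
      exact F.algebraMap_mem c
    | add a b ha hb h1 h2 =>
      intro hab
      have : (⟨a + b, hab⟩ : V) = ⟨a, hAV a ha⟩ + ⟨b, hAV b hb⟩ := rfl
      rw [this, map_add]
      exact add_mem (h1 _) (h2 _)
    | mul a b ha hb h1 h2 =>
      intro hab
      have : (⟨a * b, hab⟩ : V) = ⟨a, hAV a ha⟩ * ⟨b, hAV b hb⟩ := rfl
      rw [this, map_mul]
      exact mul_mem (h1 _) (h2 _)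
  have hdiv : ∀ {a b c : K} (ha : a ∈ V) (hb : b ∈ V) (hc : c ∈ V), V.valuation b = 1 →
      c = a / b → IsLocalRing.residue V ⟨c, hc⟩ =
        IsLocalRing.residue V ⟨a, ha⟩ / IsLocalRing.residue V ⟨b, hb⟩ := by
    intro a b c ha hb hc hb1 hab
    have hbu : IsUnit (⟨b, hb⟩ : V) := (V.valuation_eq_one_iff _).2 hb1
    have hb0 : b ≠ 0 := by
      rintro rfl
      rw [map_zero] at hb1
      exact zero_ne_one hb1
    have h4 : (⟨c, hc⟩ : V) * ⟨b, hb⟩ = ⟨a, ha⟩ := by
      apply Subtype.ext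
      show c * b = a
      rw [hab, div_mul_cancel₀ _ hb0]
    rw [eq_div_iff ((IsLocalRing.residue_ne_zero_iff_isUnit _).2 hbu), ← map_mul, h4]
  have h4 : ∀ a ∈ locV V A, ∀ ha : a ∈ V, IsLocalRing.residue V ⟨a, ha⟩ ∈ F := by
    rintro a ⟨c, hc, d, hd, hd1, hcd⟩ ha
    rw [hdiv (hAV c hc) (hAV d hd) ha hd1 hcd]
    exact div_mem (h3 c hc _) (h3 d hd _)
  let G : IntermediateField F (IsLocalRing.ResidueField V) :=
    algebraicClosure F (IsLocalRing.ResidueField V)
  have h5 : ∀ a ∈ ncl (locV V A), ∀ ha : a ∈ V, IsLocalRing.residue V ⟨a, ha⟩ ∈ G := by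
    intro a ha haV
    obtain ⟨p, hp, h0⟩ := (show IsIntegral (locV V A) a from ha)
    let ρ₀ : (locV V A) →+* V :=
      (algebraMap (locV V A) K).codRestrict V.toSubring fun x => hRV _ x.2
    let ρ : (locV V A) →+* F :=
      ((IsLocalRing.residue V).comp ρ₀).codRestrict F fun x => h4 _ x.2 _
    have hroot : Polynomial.eval₂ (algebraMap F (IsLocalRing.ResidueField V))
        (IsLocalRing.residue V ⟨a, haV⟩) (p.map ρ) = 0 := by
      rw [Polynomial.eval₂_map]
      have h6 : (algebraMap F (IsLocalRing.ResidueField V)).comp ρ =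
          (IsLocalRing.residue V).comp ρ₀ := rfl
      rw [h6, ← Polynomial.hom_eval₂]
      have h7 : Polynomial.eval₂ ρ₀ (⟨a, haV⟩ : V) p = 0 := by
        apply V.subtype_injective
        rw [Polynomial.hom_eval₂, map_zero]
        exact h0
      rw [h7, map_zero]
    have hint : IsIntegral F (IsLocalRing.residue V ⟨a, haV⟩) := ⟨p.map ρ, hp.map ρ, hroot⟩
    exact mem_algebraicClosure_iff.2 hint.isAlgebraic
  have h6 : ∀ j, IsLocalRing.residue V ⟨y j, hyV j⟩ ∈ G := by
    intro j
    obtain ⟨c, hc, d, hd, hd1, hcd⟩ := hy j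
    rw [hdiv (hCV c hc) (hCV d hd) (hyV j) hd1 hcd]
    exact div_mem (h5 c hc _) (h5 d hd _)
  let y' : Fin m → V := fun j => ⟨y j, hyV j⟩
  have h1 : AlgebraicIndependent k (fun j => IsLocalRing.residue V (y' j)) :=
    (rind_iff hV y').1 hind
  rcases Nat.eq_zero_or_pos m with rfl | hm
  · exact ⟨Fin.elim0, fun i => i.elim0, by
      have : (Fin.elim0 : Fin 0 → K) = y := funext fun i => i.elim0
      rw [this]
      exact hind⟩
  obtain ⟨q, x, hx, hxi, hq⟩ : ∃ (q : ℕ) (x : Fin q → IsLocalRing.ResidueField V),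
      (∀ i, x i ∈ S) ∧ AlgebraicIndependent k x ∧ m ≤ q := by
    by_contra hcon
    push Not at hcon
    have h7 : Algebra.trdeg k F ≤ ((m - 1 : ℕ) : Cardinal.{u}) :=
      trdeg_adjoin_le S (m - 1) fun q x hx hxi => by
        have := hcon q x hx hxi
        omega
    have h8 : Algebra.trdeg F G ≤ ((0 : ℕ) : Cardinal.{u}) := by
      rw [_root_.trdeg_eq_zero]
      exact (Nat.cast_zero (R := Cardinal.{u})).ge
    have h9 := trdeg_restrict h7 G h8
    have h10 := card_le_of_algInd h9 h1 h6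
    rw [Fintype.card_fin] at h10
    omega
  choose z hz hzx using hx
  refine ⟨fun i => (z (Fin.castLE hq i) : K), fun i => hz _, ?_⟩
  rw [rind_iff hV (fun i => z (Fin.castLE hq i))]
  have h7 : (fun i => IsLocalRing.residue V (z (Fin.castLE hq i))) = x ∘ Fin.castLE hq :=
    funext fun i => (hzx _).symm
  rw [h7]
  exact hxi.comp _ (Fin.castLE_injective hq)

/-- A valuation ring with `n - 1` residually independent elements in `NV` is a divisor of the
model. -/
theorem dv_of_rind {n : ℕ} {H : Submodule k K} (hH : IsModel H) (hV : Ov k V) (htop : V ≠ ⊤)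
    {w : Fin (n - 1) → K} (hw : ∀ i, w i ∈ NV V H) (hind : RInd k V w) : Dv n H V := by
  obtain ⟨g, hg⟩ := exists_isMin hV hH
  have h1 : NV V H = locV V (ncl (locV V (Algebra.adjoin k ((fun z => z / g) '' (H : Set K))))) := by
    rw [NV, RV_eq hg]
    rfl
  obtain ⟨y, hyE, hy⟩ := exists_rind_alg hV (E := (fun z => z / g) '' (H : Set K))
    (by rintro _ ⟨z, hz, rfl⟩; exact hg.div z hz) (fun j => h1 ▸ hw j) hind
  choose z hzH hzy using hyE
  refine ⟨hV, htop, g, hg, z, hzH, fun P hP => ?_⟩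
  have h2 : (fun i => z i / g) = y := funext hzy
  rw [h2]
  exact hy P hP

theorem dv_of_rind_RV {n : ℕ} {H : Submodule k K} (hH : IsModel H) (hV : Ov k V) (htop : V ≠ ⊤)
    {w : Fin (n - 1) → K} (hw : ∀ i, w i ∈ RV V H) (hind : RInd k V w) : Dv n H V :=
  dv_of_rind hH hV htop (fun i => RV_le_NV (hw i)) hind

/-- The form with ratios of elements of a power of `H` with minimal denominator. -/
theorem dv_of_rind_pow {n : ℕ} {H : Submodule k K} (hH : IsModel H) (hV : Ov k V) (htop : V ≠ ⊤)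
    {w : Fin (n - 1) → K} (hw : ∀ i, ∃ N, ∃ a ∈ H ^ N, ∃ b, IsMin V (H ^ N) b ∧ w i = a / b)
    (hind : RInd k V w) : Dv n H V := by
  refine dv_of_rind_RV hH hV htop (fun i => ?_) hind
  obtain ⟨N, a, ha, b, hb, h1⟩ := hw i
  rw [h1]
  rcases N with _ | N
  · rw [pow_zero] at ha hb
    have h2 : ∀ c ∈ (1 : Submodule k K), c ∈ RV V H := by
      intro c hc
      obtain ⟨d, rfl⟩ := Submodule.mem_one.1 hc
      exact (RV V H).algebraMap_mem d
    have h3 : b⁻¹ ∈ RV V H := by
      obtain ⟨d, hd⟩ := Submodule.mem_one.1 hb.mem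
      rw [← hd, ← map_inv₀]
      exact (RV V H).algebraMap_mem _
    rw [div_eq_mul_inv]
    exact mul_mem (h2 a ha) h3
  · rw [← RV_pow hV hH N]
    exact div_mem_RV hb ha

end Pool.Agent.TG9h22
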