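import Pool.Agent.Lib.TG9.Defs4
import Pool.Agent.Lib.TG9_h22.R7
import Pool.Agent.Lib.TG9_h22.Trd

/-!
# TANK G, track BC9: tools for the row R4
-/

set_option autoImplicit false

open MvPolynomial

namespace Pool.Agent.TG9h22

open Pool.Agent.TG51 Pool.Agent.TG Pool.Agent.TG9 Pool.Agent.LU2

universe u

/-- Local degrees are bounded by the degree. -/
theorem ldeg_of_finrank {k F M : Type u} [Field k] [Field F] [Algebra k F] [Field M] [Algebra F M]
    {v₀ : ValuationSubring F} {R : Subalgebra k F} {d : ℕ} (hd : Module.finrank F M ≤ d) :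
    LDeg M v₀ R d := by
  intro N _ _ _ _ _ _ j W _
  have h1 : j.fieldRange.fixingSubgroup.index = Module.finrank F M := by
    rw [← IntermediateField.finrank_eq_fixingSubgroup_index]
    exact (AlgEquiv.ofInjectiveField j).toLinearEquiv.finrank_eq.symm
  have h2 : j.fieldRange.fixingSubgroup.relIndex ⊤ ≠ 0 := by
    rw [Subgroup.relIndex_top_right]
    exact Subgroup.index_ne_zero_of_finite
  refine (Subgroup.relIndex_le_of_le_right le_top h2).trans ?_
  rw [Subgroup.relIndex_top_right, h1]
  exact hd

/-- Extensions of degree smaller than the characteristic are separable. -/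
theorem isSeparable_of_finrank {F M : Type u} [Field F] [Field M] [Algebra F M]
    [FiniteDimensional F M] (p : ℕ) [Fact p.Prime] [CharP F p]
    (h : Module.finrank F M < p) : Algebra.IsSeparable F M := by
  constructor
  intro x
  have hx : IsIntegral F x := Algebra.IsIntegral.isIntegral x
  rcases (minpoly F x).separable_or p (minpoly.irreducible hx) with h1 | ⟨-, g, hg, h2⟩
  · exact h1
  · exfalso
    have h3 : (minpoly F x).natDegree = g.natDegree * p := by
      rw [← h2, Polynomial.natDegree_expand]
    have h4 := minpoly.natDegree_le (A := F) x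
    have h5 := hg.natDegree_pos
    have h6 : p ≤ g.natDegree * p := Nat.le_mul_of_pos_left _ h5
    omega

/-- If linearly independent families in `F(S)` have at most `B` elements then the degree of
`F(S)` is at most `B`. -/
theorem finrank_adjoin_le {F E : Type u} [Field F] [Field E] [Algebra F E] (S : Set E) (B : ℕ)
    (h : ∀ r : ℕ, ∀ θ : Fin r → E, LinearIndependent F θ →
      (∀ i, θ i ∈ IntermediateField.adjoin F S) → r ≤ B) :
    FiniteDimensional F (IntermediateField.adjoin F S) ∧
      Module.finrank F (IntermediateField.adjoin F S) ≤ B := by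
  have h1 : Module.rank F (IntermediateField.adjoin F S) ≤ (B : Cardinal) := by
    refine rank_le fun s hs => ?_
    have h2 : LinearIndependent F (fun i : s => ((i : IntermediateField.adjoin F S) : E)) :=
      hs.map' (IntermediateField.adjoin F S).val.toLinearMap
        (LinearMap.ker_eq_bot.2 (IntermediateField.adjoin F S).val.injective)
    have h3 : LinearIndependent F (fun i : Fin s.card =>
        (((s.equivFin.symm i : s) : IntermediateField.adjoin F S) : E)) :=
      h2.comp _ s.equivFin.symm.injective
    exact h _ _ h3 fun i => ((s.equivFin.symm i : s) : IntermediateField.adjoin F S).2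
  refine ⟨?_, Module.finrank_le_of_rank_le h1⟩
  exact Module.rank_lt_aleph0_iff.1 (h1.trans_lt (Cardinal.natCast_lt_aleph0))

/-- `F(x)` has transcendence degree `m` if `x 1, .., x m` are algebraically independent. -/
theorem trdeg_adjoin_ind {κ E : Type u} [Field κ] [Field E] [Algebra κ E] {m : ℕ} {x : Fin m → E}
    (hx : AlgebraicIndependent κ x) :
    Algebra.trdeg κ (IntermediateField.adjoin κ (Set.range x)) = (m : Cardinal.{u}) := by
  refine le_antisymm ?_ ?_
  · have h1 := trdeg_adjoin_range (κ := κ) x
    rwa [Fintype.card_fin] at h1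
  · let c' : Fin m → IntermediateField.adjoin κ (Set.range x) := fun i =>
      ⟨x i, IntermediateField.subset_adjoin _ _ ⟨i, rfl⟩⟩
    have h1 : AlgebraicIndependent κ c' := by
      have h2 : AlgebraicIndependent κ
          ((IntermediateField.adjoin κ (Set.range x)).val ∘ c') := hx
      exact h2.of_comp _
    have h2 := h1.lift_cardinalMk_le_trdeg
    rwa [Cardinal.mk_fin, Cardinal.lift_natCast, Cardinal.lift_id'.{0, u}] at h2

/-- The Jacobian determinant of `n` forms of degree `s + 1` is a form of degree `n s`. -/
theorem isHomogeneous_jac {k : Type u} [Field k] {n s : ℕ} {h : Fin n → MvPolynomial (Fin n) k}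
    (hh : ∀ i, (h i).IsHomogeneous (s + 1)) :
    (Matrix.det (Matrix.of fun i a => pderiv a (h i))).IsHomogeneous (n * s) := by
  rw [Matrix.det_apply]
  refine IsHomogeneous.sum _ _ _ fun σ _ => ?_
  have h1 : (∏ i : Fin n, (Matrix.of fun i a => pderiv a (h i)) (σ i) i).IsHomogeneous
      (∑ _i : Fin n, s) := by
    refine IsHomogeneous.prod _ _ _ fun i _ => ?_
    exact (hh (σ i)).pderiv
  rw [Finset.sum_const, Finset.card_univ, Fintype.card_fin, smul_eq_mul] at h1
  rcases Int.units_eq_one_or (Equiv.Perm.sign σ) with h2 | h2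
  · rw [h2, one_smul]
    exact h1
  · rw [h2, Units.neg_smul, one_smul]
    exact (homogeneousSubmodule (Fin n) k (n * s)).neg_mem h1

section ResPoly

variable {k K : Type u} [Field k] [Field K] [Algebra k K] {v : ValuationSubring K}

/-- The residue of the value of a polynomial. -/
theorem res_aeval {σ : Type} (hv : Ov k v) (g : σ → v) (P : MvPolynomial σ k) :
    letI : Algebra k (IsLocalRing.ResidueField v) := resAlg hv
    ∃ hP : aeval (fun a => (g a : K)) P ∈ v,
      IsLocalRing.residue v ⟨aeval (fun a => (g a : K)) P, hP⟩ =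
        aeval (fun a => IsLocalRing.residue v (g a)) P := by
  let _ : Algebra k (IsLocalRing.ResidueField v) := resAlg hv
  let ι₀ : k →+* v := (algebraMap k K).codRestrict v.toSubring hv
  have h1 : aeval (fun a => (g a : K)) P = ((eval₂ ι₀ g P : v) : K) :=
    (eval₂_comp_left v.subtype ι₀ g P).symm
  have h2 : aeval (fun a => IsLocalRing.residue v (g a)) P =
      IsLocalRing.residue v (eval₂ ι₀ g P) :=
    (eval₂_comp_left (IsLocalRing.residue v) ι₀ g P).symm
  have h3 : aeval (fun a => (g a : K)) P ∈ v := by
    rw [h1]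
    exact (eval₂ ι₀ g P).2
  refine ⟨h3, ?_⟩
  rw [h2]
  exact congrArg _ (Subtype.ext h1)

/-- The residue of the value of a polynomial over a field `L ⊆ v`. -/
theorem res_aeval_poly {F : Type u} [Field F] [Algebra F K] (hF : ∀ x : F, algebraMap F K x ∈ v)
    (ψ : F →+* IsLocalRing.ResidueField v)
    (hψ : ∀ x, ψ x = IsLocalRing.residue v ⟨algebraMap F K x, hF x⟩) (z : v)
    (P : Polynomial F) : ∃ hP : Polynomial.aeval (z : K) P ∈ v,
      IsLocalRing.residue v ⟨Polynomial.aeval (z : K) P, hP⟩ =
        Polynomial.eval₂ ψ (IsLocalRing.residue v z) P := by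
  let ι₀ : F →+* v := (algebraMap F K).codRestrict v.toSubring hF
  have h1 : Polynomial.aeval (z : K) P = ((Polynomial.eval₂ ι₀ z P : v) : K) :=
    (Polynomial.hom_eval₂ P ι₀ v.subtype z).symm
  have h4 : ψ = (IsLocalRing.residue v).comp ι₀ := RingHom.ext fun x => hψ x
  have h2 : Polynomial.eval₂ ψ (IsLocalRing.residue v z) P =
      IsLocalRing.residue v (Polynomial.eval₂ ι₀ z P) := by
    rw [h4]
    exact (Polynomial.hom_eval₂ P ι₀ (IsLocalRing.residue v) z).symm
  have h3 : Polynomial.aeval (z : K) P ∈ v := by
    rw [h1]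
    exact (Polynomial.eval₂ ι₀ z P).2
  refine ⟨h3, ?_⟩
  rw [h2]
  exact congrArg _ (Subtype.ext h1)

end ResPoly

end Pool.Agent.TG9h22
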