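import Pool.Agent.Lib.TG9.Defs4
import Pool.Agent.Lib.TG9_h22.PDv
import Pool.Agent.Lib.TG.WLz
import Pool.Agent.Lib.TG_h68.Cl
import Pool.Agent.Lib.TG_h68.PdLoc

/-!
# TANK G, track BC9: the key lemma for the rows R4, R7: at a prime divisor of `Spec k[b, z]` the form
`h 0 (f)` has minimal value
-/

set_option autoImplicit false

open MvPolynomial

namespace Pool.Agent.TG9h22

open Pool.Agent.TG51 Pool.Agent.TG Pool.Agent.TG9 Pool.Agent.LU2

universe u

section Forms

variable {k K : Type u} [Field k] [Field K] [Algebra k K] {σ : Type} [Fintype σ]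

theorem sum_eq_of_form {P : MvPolynomial σ k} {s : ℕ} (hP : P.IsHomogeneous s) {d : σ →₀ ℕ}
    (hd : d ∈ P.support) : ∑ i, d i = s := by
  by_contra h
  have h1 : d.degree ≠ s := by
    rwa [Finsupp.degree_eq_sum]
  exact mem_support_iff.1 hd (hP.coeff_eq_zero h1)

/-- Values of a form at a multiple of a point. -/
theorem form_mul {P : MvPolynomial σ k} {s : ℕ} (hP : P.IsHomogeneous s) (u : K) (g : σ → K) :
    aeval (fun a => u * g a) P = u ^ s * aeval g P := by
  rw [aeval_def, aeval_def, eval₂_eq', eval₂_eq', Finset.mul_sum]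
  refine Finset.sum_congr rfl fun d hd => ?_
  have h1 : ∏ i, (u * g i) ^ d i = u ^ s * ∏ i, g i ^ d i := by
    rw [← sum_eq_of_form hP hd, ← Finset.prod_pow_eq_pow_sum, ← Finset.prod_mul_distrib]
    exact Finset.prod_congr rfl fun i _ => mul_pow _ _ _
  rw [h1]
  ring

theorem form_div {P : MvPolynomial σ k} {s : ℕ} (hP : P.IsHomogeneous s) {u : K} (hu : u ≠ 0)
    (g : σ → K) : aeval g P / u ^ s = aeval (fun a => g a / u) P := by
  have h1 : (fun a => u * (g a / u)) = g := funext fun a => mul_div_cancel₀ _ hu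
  have h2 := form_mul hP u fun a => g a / u
  rw [h1] at h2
  rw [h2, mul_div_cancel_left₀ _ (pow_ne_zero _ hu)]

theorem aeval_mem {V : ValuationSubring K} (hV : Ov k V) (P : MvPolynomial σ k) {g : σ → K}
    (hg : ∀ a, g a ∈ V) : aeval g P ∈ V := by
  rw [aeval_def, eval₂_eq']
  exact sum_mem fun d _ => mul_mem (hV _) (prod_mem fun i _ => pow_mem (hg i) _)

/-- Values of a form in the power of a subspace. -/
theorem form_mem {P : MvPolynomial σ k} {s : ℕ} (hP : P.IsHomogeneous s) {Q : Submodule k K}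
    {g : σ → K} (hg : ∀ a, g a ∈ Q) : aeval g P ∈ Q ^ s := by
  rw [aeval_def, eval₂_eq']
  refine Submodule.sum_mem _ fun d hd => ?_
  rw [← Algebra.smul_def]
  refine Submodule.smul_mem _ _ ?_
  have h1 : ∀ S : Finset σ, ∏ i ∈ S, g i ^ d i ∈ Q ^ (∑ i ∈ S, d i) := by
    classical
    intro S
    induction S using Finset.induction_on with
    | empty => simp
    | insert a S ha ih =>
      rw [Finset.prod_insert ha, Finset.sum_insert ha, pow_add]
      exact Submodule.mul_mem_mul (Submodule.pow_mem_pow _ (hg a) _) ih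
  have h2 := h1 Finset.univ
  rwa [sum_eq_of_form hP hd] at h2

end Forms

section Key

variable {k K : Type u} [Field k] [Field K] [Algebra k K]

theorem isModel_mul {L W : Submodule k K} (hL : L.FG) (h1 : (1 : K) ∈ L) {m : ℕ} (hW : W ≤ L ^ m)
    (hW0 : W ≠ ⊥) : IsModel (W * L) := by
  have hLm : (L ^ m).FG := hL.pow m
  have hWfg : W.FG := by
    have : FiniteDimensional k (L ^ m : Submodule k K) := Module.Finite.iff_fg.2 hLm
    exact Module.Finite.iff_fg.1 (Submodule.finiteDimensional_of_le hW)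
  have hL0 : L ≠ ⊥ := by
    rintro rfl
    exact one_ne_zero ((Submodule.mem_bot k).1 h1)
  exact IsModel.mul ⟨hWfg, hW0⟩ ⟨hL, hL0⟩

variable {n p : ℕ} {A₀ : Subalgebra k K}
  {L : Submodule k K} {c : ℕ} {τ : K} {c' m : ℕ} {q : K [⋀^Fin (n + 1)]→ₗ[k] K}
  {W : Submodule k K} {f : Fin (n + 1) → K}
  {h : Fin (n + 1) → MvPolynomial (Fin (n + 1)) k}

theorem setup_model (S : Setup n p A₀ L c τ c' m q W f h) : IsModel (W * L) :=
  isModel_mul S.dat.fg S.dat.one S.W_le S.W_ne

theorem setup_q (S : Setup n p A₀ L c τ c' m q W f h) : q (fun j => aeval f (h j)) ≠ 0 := by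
  intro h0
  have h1 := S.jac (n + 1) h S.hom f
  rw [h0, mul_zero] at h1
  exact mul_ne_zero S.jac_ne S.good.ne h1.symm

theorem setup_ind (S : Setup n p A₀ L c τ c' m q W f h) :
    AlgebraicIndependent k (fun i : Fin n => aeval f (h i.succ) / aeval f (h 0)) :=
  (S.sep _ (setup_q S) S.h_ne).1

/-- **Key lemma.** -/
theorem setup_val (S : Setup n p A₀ L c τ c' m q W f h) {v : ValuationSubring K} (hv : Ov k v)
    (hh : ∀ i, aeval f (h i) / aeval f (h 0) ∈ v) {a₁ : Fin (n + 1)}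
    (ha₁ : IsMin v ((W * L) ^ (2 * n + 3)) (f a₁)) :
    v.valuation (aeval f (h 0)) = v.valuation (f a₁) ^ (n + 1) := by
  have : IsAlgClosed k := S.closed
  obtain ⟨V, hVv, hV⟩ := exists_zdim_le hv
  obtain ⟨j, hj⟩ := S.good.bpf V hV.ov
  have hjv : IsMin v ((W * L) ^ (2 * n + 3)) (f j) := hj.of_le hVv
  obtain ⟨i₀, -, h1, -⟩ := S.secK V hV j (fun a => hj.div _ (S.good.mem a)) hj.ne
  have hfj := hj.ne
  have hs : f j ^ (n + 1) ≠ 0 := pow_ne_zero _ hfj
  -- `h i₀ (f) / f j ^ s` is a unit of `V`, hence of `v`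
  have hvj0 : V.valuation (f j ^ (n + 1)) ≠ 0 := (Valuation.ne_zero_iff _).2 hs
  have h2 : V.valuation (aeval f (h i₀) / f j ^ (n + 1)) = 1 := by
    rw [map_div₀, h1, ← map_pow, div_self hvj0]
  have hne : aeval f (h i₀) ≠ 0 := by
    intro h0
    rw [h0, zero_div, map_zero] at h2
    exact zero_ne_one h2
  have h3 : aeval f (h i₀) / f j ^ (n + 1) ∈ v := hVv ((V.valuation_le_one_iff _).1 h2.le)
  have h4 : f j ^ (n + 1) / aeval f (h i₀) ∈ v := by
    refine hVv ((V.valuation_le_one_iff _).1 ?_)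
    have h5 : V.valuation (f j ^ (n + 1) / aeval f (h i₀)) = 1 := by
      rw [← inv_div, map_inv₀, h2, inv_one]
    exact h5.le
  have h5 : v.valuation (aeval f (h i₀)) = v.valuation (f j ^ (n + 1)) := by
    refine le_antisymm ?_ ?_
    · have h6 := (v.valuation_le_one_iff _).2 h3
      rw [map_div₀] at h6
      exact (div_le_one₀ (zero_lt_iff.2 ((Valuation.ne_zero_iff _).2 hs))).1 h6
    · have h6 := (v.valuation_le_one_iff _).2 h4
      rw [map_div₀] at h6
      exact (div_le_one₀ (zero_lt_iff.2 ((Valuation.ne_zero_iff _).2 hne))).1 h6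
  have h6 : v.valuation (aeval f (h i₀)) ≤ v.valuation (aeval f (h 0)) := by
    have h7 := (v.valuation_le_one_iff _).2 (hh i₀)
    rw [map_div₀] at h7
    exact (div_le_one₀ (zero_lt_iff.2 ((Valuation.ne_zero_iff _).2 S.h_ne))).1 h7
  have h7 : v.valuation (aeval f (h 0)) ≤ v.valuation (f j ^ (n + 1)) := by
    have h8 : aeval f (h 0) / f j ^ (n + 1) ∈ v := by
      rw [form_div (S.hom 0) hfj]
      exact aeval_mem hv _ fun a => hjv.div _ (S.good.mem a)
    have h9 := (v.valuation_le_one_iff _).2 h8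
    rw [map_div₀] at h9
    exact (div_le_one₀ (zero_lt_iff.2 ((Valuation.ne_zero_iff _).2 hs))).1 h9
  have h8 : v.valuation (f j) = v.valuation (f a₁) := by
    have h9 := val_div_eq_one ha₁ hjv
    rw [map_div₀] at h9
    exact (div_eq_one_iff_eq ((Valuation.ne_zero_iff _).2 ha₁.ne)).1 h9
  rw [← h8, ← map_pow]
  exact le_antisymm h7 (h5 ▸ h6)

theorem setup_min (S : Setup n p A₀ L c τ c' m q W f h) {v : ValuationSubring K} (hv : Ov k v)
    (hh : ∀ i, aeval f (h i) / aeval f (h 0) ∈ v) :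
    IsMin v ((W * L) ^ ((2 * n + 3) * (n + 1))) (aeval f (h 0)) := by
  obtain ⟨a₁, ha₁⟩ := S.good.bpf v hv
  have h1 := setup_val S hv hh ha₁
  have h2 : IsMin v ((W * L) ^ ((2 * n + 3) * (n + 1))) (f a₁ ^ (n + 1)) := by
    rw [pow_mul]
    exact ha₁.pow hv (n + 1)
  refine h2.of_val ?_ ?_
  · rw [pow_mul]
    exact form_mem (S.hom 0) S.good.mem
  · rw [map_div₀, h1, map_pow, div_self (pow_ne_zero _ ((Valuation.ne_zero_iff _).2 ha₁.ne))]

end Key

end Pool.Agent.TG9h22
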